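import Mathlib

namespace Pool.Agent.Work.MP_b71732_co

/-- rotation by one of the positions `0, ..., n-1` of the cycle. -/
def rot (n x : ℕ) : ℕ := if x + 1 = n then 0 else x + 1

/-- stable `k`-subsets of the `n`-cycle on the positions `0, ..., n-1`. -/
structure Stab (n k : ℕ) (A : Finset ℕ) : Prop where
  lt : ∀ x ∈ A, x < n
  card : A.card = k
  adj : ∀ x ∈ A, rot n x ∉ A

end Pool.Agent.Work.MP_b71732_co
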