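import Mathlib
import Pool.Agent.Work.MP_b71732_co.Basic

/-!
# The lower bound for the chromatic number of Schrijver graphs

A combinatorial proof from a parity lemma on chains of sign vectors.
-/

set_option autoImplicit false

namespace Pool.Agent.Work.MP_b71732_co

open Finset

namespace Lower

/-- Change of the sign. -/
def fl (x : ℕ × Bool) : ℕ × Bool := (x.1, !x.2)

theorem fl_fl (x : ℕ × Bool) : fl (fl x) = x := by simp [fl]

theorem fl_ne (x : ℕ × Bool) : fl x ≠ x := by
  intro h
  have := congrArg Prod.snd h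
  simp [fl] at this

/-- The opposite of a sign vector. -/
def opp (S : Finset (ℕ × Bool)) : Finset (ℕ × Bool) := S.image fl

theorem mem_opp {S : Finset (ℕ × Bool)} {x : ℕ × Bool} : x ∈ opp S ↔ fl x ∈ S := by
  simp only [opp, mem_image]
  constructor
  · rintro ⟨y, hy, rfl⟩
    rwa [fl_fl]
  · intro h
    exact ⟨fl x, h, fl_fl x⟩

/-- Nonempty sign vectors with coordinates below `n`. -/
structure SV (n : ℕ) (S : Finset (ℕ × Bool)) : Prop where
  ne : S.Nonempty
  lt : ∀ x ∈ S, x.1 < n
  one : ∀ x ∈ S, fl x ∉ S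

/-- The indicator of alternation, starting with `b`. -/
def alt {i : ℕ} (b : Bool) (s : Fin i → Bool) : ZMod 2 :=
  if ∀ l : Fin i, s l = xor b (decide (Odd (l : ℕ))) then 1 else 0

theorem alt_succ {i : ℕ} (b : Bool) (s : Fin (i + 1) → Bool) :
    alt b s = if s 0 = b then alt (!b) (fun l => s l.succ) else 0 := by
  have h : ∀ l : Fin i, (xor b (decide (Odd ((l.succ : Fin (i + 1)) : ℕ)))) =
      xor (!b) (decide (Odd (l : ℕ))) := by
    intro l
    rw [Fin.val_succ]
    by_cases ho : Odd (l : ℕ)
    · have : ¬ Odd ((l : ℕ) + 1) := by rw [Nat.odd_add_one]; exact not_not.2 ho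
      simp [ho, this]
    · have : Odd ((l : ℕ) + 1) := by rw [Nat.odd_add_one]; exact ho
      simp [ho, this]
  have hiff : (∀ l : Fin (i + 1), s l = xor b (decide (Odd (l : ℕ)))) ↔
      (s 0 = b ∧ ∀ l : Fin i, s l.succ = xor (!b) (decide (Odd (l : ℕ)))) := by
    rw [Fin.forall_fin_succ]
    simp only [h]
    rw [Fin.val_zero, show decide (Odd 0) = false from by decide, Bool.xor_false]
  unfold alt
  by_cases hb : s 0 = b
  · rw [if_pos hb]
    by_cases ht : ∀ l : Fin i, s l.succ = xor (!b) (decide (Odd (l : ℕ)))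
    · rw [if_pos (hiff.2 ⟨hb, ht⟩), if_pos ht]
    · rw [if_neg (fun h' => ht (hiff.1 h').2), if_neg ht]
  · rw [if_neg (fun h' => hb (hiff.1 h').1), if_neg hb]

theorem sum_alt_succAbove {i : ℕ} (b : Bool) (s : Fin (i + 1) → Bool) :
    ∑ j : Fin (i + 1), alt b (fun l => s (j.succAbove l)) = alt b s + alt (!b) s := by
  induction i generalizing b with
  | zero =>
    rw [alt_succ, alt_succ, Fin.sum_univ_succ, Fin.sum_univ_zero, add_zero]
    have : ∀ (b : Bool) (t : Fin 0 → Bool), alt b t = 1 := by
      intro b t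
      unfold alt
      rw [if_pos (fun l => l.elim0)]
    simp only [this]
    cases b <;> cases s 0 <;> simp
  | succ i ih =>
    rw [Fin.sum_univ_succ]
    have h1 : ∀ j : Fin (i + 1), alt b (fun l => s ((Fin.succ j).succAbove l)) =
        if s 0 = b then alt (!b) (fun l => (fun m : Fin (i + 1) => s m.succ) (j.succAbove l))
          else 0 := by
      intro j
      rw [alt_succ]
      simp only [Fin.succ_succAbove_zero, Fin.succ_succAbove_succ]
    simp only [h1, Fin.succAbove_zero]
    rw [alt_succ b s, alt_succ (!b) s]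
    have ih' := ih (!b) (fun m : Fin (i + 1) => s m.succ)
    simp only [Bool.not_not] at ih' ⊢
    by_cases hb : s 0 = b
    · have hb' : ¬ s 0 = !b := by rw [hb]; cases b <;> simp
      simp only [if_pos hb, if_neg hb']
      rw [ih', add_zero]
      have h2 : ∀ x y : ZMod 2, x + (y + x) = y := by decide
      exact h2 _ _
    · have hb' : s 0 = !b := by
        revert hb
        cases b <;> cases s 0 <;> simp
      simp only [if_neg hb, if_pos hb', sum_const_zero]
      rw [add_zero, zero_add]

/-- The facets of level `i`. -/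
def Fac (i : ℕ) : Finset (Fin i → ℕ × Bool) :=
  (Fintype.piFinset fun _ => range i ×ˢ univ).filter
    (fun f => Function.Injective (fun a => (f a).1))

theorem mem_Fac {i : ℕ} {f : Fin i → ℕ × Bool} :
    f ∈ Fac i ↔ (∀ a, (f a).1 < i) ∧ Function.Injective (fun a => (f a).1) := by
  simp [Fac, Fintype.mem_piFinset]

/-- The prefixes of a facet. -/
def pre {i : ℕ} (f : Fin i → ℕ × Bool) (l : ℕ) : Finset (ℕ × Bool) :=
  (univ.filter (fun a : Fin i => (a : ℕ) ≤ l)).image f

theorem mem_pre {i : ℕ} {f : Fin i → ℕ × Bool} {l : ℕ} {x : ℕ × Bool} :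
    x ∈ pre f l ↔ ∃ a : Fin i, (a : ℕ) ≤ l ∧ f a = x := by
  simp [pre]

theorem pre_sv {n i : ℕ} (hi : i ≤ n) {f : Fin i → ℕ × Bool} (hf : f ∈ Fac i) (l : Fin i) :
    SV n (pre f l) := by
  rw [mem_Fac] at hf
  refine ⟨⟨f l, mem_pre.2 ⟨l, le_rfl, rfl⟩⟩, ?_, ?_⟩
  · rintro x hx
    obtain ⟨a, _, rfl⟩ := mem_pre.1 hx
    exact (hf.1 a).trans_le hi
  · rintro x hx hx'
    obtain ⟨a, _, rfl⟩ := mem_pre.1 hx
    obtain ⟨b, _, hb⟩ := mem_pre.1 hx'
    have h1 : (f b).1 = (f a).1 := by rw [hb]; rfl
    have h2 := hf.2 h1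
    subst h2
    exact fl_ne _ hb.symm

theorem pre_fl {i : ℕ} (f : Fin i → ℕ × Bool) (l : ℕ) : pre (fun a => fl (f a)) l = opp (pre f l) := by
  ext x
  rw [mem_opp, mem_pre, mem_pre]
  constructor
  · rintro ⟨a, ha, rfl⟩
    exact ⟨a, ha, (fl_fl _).symm⟩
  · rintro ⟨a, ha, h⟩
    exact ⟨a, ha, by rw [h, fl_fl]⟩

theorem fl_mem_Fac {i : ℕ} {f : Fin i → ℕ × Bool} (hf : f ∈ Fac i) :
    (fun a => fl (f a)) ∈ Fac i := by
  rw [mem_Fac] at hf ⊢
  exact hf

theorem exists_top {i : ℕ} {f : Fin (i + 1) → ℕ × Bool} (hf : f ∈ Fac (i + 1)) :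
    ∃ a, (f a).1 = i := by
  rw [mem_Fac] at hf
  let g : Fin (i + 1) → Fin (i + 1) := fun a => ⟨(f a).1, hf.1 a⟩
  have hg : Function.Injective g := by
    intro a b hab
    apply hf.2
    exact congrArg Fin.val hab
  obtain ⟨a, ha⟩ := (Finite.injective_iff_surjective.1 hg) (Fin.last i)
  exact ⟨a, congrArg Fin.val ha⟩

theorem pre_swap {i : ℕ} (f : Fin (i + 1) → ℕ × Bool) (j : Fin i) (m : ℕ) (hm : m ≠ (j : ℕ)) :
    pre (f ∘ Equiv.swap j.castSucc j.succ) m = pre f m := by
  have key : ∀ a : Fin (i + 1), ((Equiv.swap j.castSucc j.succ a : Fin (i + 1)) : ℕ) ≤ m ↔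
      (a : ℕ) ≤ m := by
    intro a
    rw [Equiv.swap_apply_def]
    split_ifs with h1 h2
    · rw [h1, Fin.val_succ, Fin.val_castSucc]; omega
    · rw [h2, Fin.val_succ, Fin.val_castSucc]; omega
    · exact Iff.rfl
  ext x
  rw [mem_pre, mem_pre]
  constructor
  · rintro ⟨a, ha, h⟩
    exact ⟨Equiv.swap j.castSucc j.succ a, (key a).2 ha, h⟩
  · rintro ⟨a, ha, h⟩
    refine ⟨Equiv.swap j.castSucc j.succ a, (key a).2 ha, ?_⟩
    rw [Function.comp_apply, Equiv.swap_apply_self, h]

theorem pre_update {i : ℕ} (f : Fin (i + 1) → ℕ × Bool) (x : ℕ × Bool) (m : ℕ) (hm : m < i) :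
    pre (Function.update f (Fin.last i) x) m = pre f m := by
  ext y
  rw [mem_pre, mem_pre]
  have key : ∀ a : Fin (i + 1), (a : ℕ) ≤ m → Function.update f (Fin.last i) x a = f a := by
    intro a ha
    rw [Function.update_of_ne]
    rintro rfl
    rw [Fin.val_last] at ha
    omega
  constructor
  · rintro ⟨a, ha, h⟩
    exact ⟨a, ha, by rw [← key a ha]; exact h⟩
  · rintro ⟨a, ha, h⟩
    exact ⟨a, ha, by rw [key a ha]; exact h⟩

theorem pre_snoc {i : ℕ} (f : Fin i → ℕ × Bool) (x : ℕ × Bool) (m : ℕ) (hm : m < i) :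
    pre (Fin.snoc (α := fun _ => ℕ × Bool) f x) m = pre f m := by
  ext y
  rw [mem_pre, mem_pre]
  constructor
  · rintro ⟨a, ha, h⟩
    obtain ⟨b, rfl⟩ : ∃ b : Fin i, a = b.castSucc :=
      ⟨⟨a, by omega⟩, Fin.ext rfl⟩
    rw [Fin.snoc_castSucc] at h
    exact ⟨b, ha, h⟩
  · rintro ⟨a, ha, h⟩
    refine ⟨a.castSucc, ha, ?_⟩
    rw [Fin.snoc_castSucc, h]

/-- The step of the parity lemma. -/
theorem parity_step {n : ℕ} (sg : Finset (ℕ × Bool) → Bool)
    (hsg : ∀ S, SV n S → sg (opp S) = !sg S) (i : ℕ) (hi : i + 1 ≤ n) :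
    ∑ f ∈ Fac (i + 1), alt true (fun l : Fin (i + 1) => sg (pre f l)) =
      ∑ f ∈ Fac i, alt true (fun l : Fin i => sg (pre f l)) := by
  classical
  let Hp : (Fin (i + 1) → ℕ × Bool) → Prop := fun f => ∃ a, f a = (i, true)
  have hneg : ∀ f ∈ Fac (i + 1), alt false (fun l : Fin (i + 1) => sg (pre f l)) =
      alt true (fun l : Fin (i + 1) => sg (pre (fun a => fl (f a)) l)) := by
    intro f hf
    unfold alt
    congr 1
    apply propext
    apply forall_congr'
    intro l
    show sg (pre f l) = _ ↔ sg (pre (fun a => fl (f a)) l) = _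
    rw [pre_fl, hsg _ (pre_sv hi hf l)]
    cases sg (pre f l) <;> cases decide (Odd (l : ℕ)) <;> simp
  have hiff : ∀ f ∈ Fac (i + 1), ¬ Hp f ↔ Hp (fun a => fl (f a)) := by
    intro f hf
    obtain ⟨a, ha⟩ := exists_top hf
    rw [mem_Fac] at hf
    constructor
    · intro h
      refine ⟨a, ?_⟩
      have h2 : (f a).2 = false := by
        by_contra h3
        apply h
        refine ⟨a, Prod.ext ha ?_⟩
        simpa using h3
      exact Prod.ext ha (by simp [fl, h2])
    · rintro ⟨b, hb⟩ ⟨c, hc⟩
      have hb1 : (f b).1 = i := congrArg Prod.fst hb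
      have hc1 : (f c).1 = i := by rw [hc]
      have : b = c := hf.2 (hb1.trans hc1.symm)
      subst this
      simp only [hc, fl] at hb
      simp at hb
  have h1 := (sum_filter_add_sum_filter_not (Fac (i + 1)) Hp
    (fun f => alt true (fun l : Fin (i + 1) => sg (pre f l)))).symm
  have h2 : ∑ f ∈ (Fac (i + 1)).filter (fun f => ¬ Hp f),
        alt true (fun l : Fin (i + 1) => sg (pre f l)) =
      ∑ f ∈ (Fac (i + 1)).filter Hp, alt false (fun l : Fin (i + 1) => sg (pre f l)) := by
    apply sum_nbij' (fun f a => fl (f a)) (fun f a => fl (f a))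
    · intro f hf
      rw [mem_filter] at hf ⊢
      exact ⟨fl_mem_Fac hf.1, (hiff f hf.1).1 hf.2⟩
    · intro f hf
      rw [mem_filter] at hf ⊢
      refine ⟨fl_mem_Fac hf.1, ?_⟩
      rw [hiff _ (fl_mem_Fac hf.1)]
      simp only [fl_fl]
      exact hf.2
    · intro f _
      simp only [fl_fl]
    · intro f _
      simp only [fl_fl]
    · intro f hf
      rw [mem_filter] at hf
      rw [hneg _ (fl_mem_Fac hf.1)]
      simp only [fl_fl]
  rw [h1, h2, ← sum_add_distrib]
  have h3 : ∀ f : Fin (i + 1) → ℕ × Bool,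
      alt true (fun l : Fin (i + 1) => sg (pre f l)) +
        alt false (fun l : Fin (i + 1) => sg (pre f l)) =
      ∑ j : Fin (i + 1), alt true (fun l : Fin i => sg (pre f (j.succAbove l))) := by
    intro f
    exact (sum_alt_succAbove true (fun l : Fin (i + 1) => sg (pre f l))).symm
  simp only [h3]
  rw [sum_comm, Fin.sum_univ_castSucc]
  have h4 : ∀ j : Fin i, ∑ f ∈ (Fac (i + 1)).filter Hp,
      alt true (fun l : Fin i => sg (pre f (j.castSucc.succAbove l))) = 0 := by
    intro j
    have hne : (j.castSucc : Fin (i + 1)) ≠ j.succ := by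
      intro h
      have := congrArg Fin.val h
      rw [Fin.val_succ, Fin.val_castSucc] at this
      omega
    refine sum_involution (fun f _ => f ∘ Equiv.swap j.castSucc j.succ) ?_ ?_ ?_ ?_
    · intro f _
      have : ∀ l : Fin i, pre (f ∘ Equiv.swap j.castSucc j.succ) (j.castSucc.succAbove l) =
          pre f (j.castSucc.succAbove l) := by
        intro l
        apply pre_swap
        intro h
        apply Fin.succAbove_ne j.castSucc l
        apply Fin.ext
        rw [h, Fin.val_castSucc]
      simp only [this]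
      exact CharTwo.add_self_eq_zero _
    · intro f hf _ h
      rw [mem_filter, mem_Fac] at hf
      have := congrFun h j.castSucc
      rw [Function.comp_apply, Equiv.swap_apply_left] at this
      exact hne (hf.1.2 (congrArg Prod.fst this)).symm
    · intro f hf
      rw [mem_filter, mem_Fac] at hf ⊢
      refine ⟨⟨fun a => hf.1.1 _, ?_⟩, ?_⟩
      · exact hf.1.2.comp (Equiv.injective _)
      · obtain ⟨a, ha⟩ := hf.2
        refine ⟨Equiv.swap j.castSucc j.succ a, ?_⟩
        rw [Function.comp_apply, Equiv.swap_apply_self]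
        exact ha
    · intro f _
      funext a
      simp only [Function.comp_apply, Equiv.swap_apply_self]
  simp only [h4, sum_const_zero, zero_add, Fin.succAbove_last]
  rw [← sum_filter_add_sum_filter_not ((Fac (i + 1)).filter Hp) (fun f => f (Fin.last i) = (i, true))]
  have h5 : ∑ f ∈ ((Fac (i + 1)).filter Hp).filter (fun f => ¬ f (Fin.last i) = (i, true)),
      alt true (fun l : Fin i => sg (pre f (l.castSucc : Fin (i + 1)))) = 0 := by
    have hlast : ∀ f ∈ ((Fac (i + 1)).filter Hp).filter (fun f => ¬ f (Fin.last i) = (i, true)),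
        ∃ a, a ≠ Fin.last i ∧ f a = (i, true) ∧ (f (Fin.last i)).1 ≠ i := by
      intro f hf
      rw [mem_filter, mem_filter, mem_Fac] at hf
      obtain ⟨⟨⟨hf1, hf2⟩, a, ha⟩, hl⟩ := hf
      have hal : a ≠ Fin.last i := by
        rintro rfl
        exact hl ha
      refine ⟨a, hal, ha, fun h => hal (hf2 ?_)⟩
      simp only [ha, h]
    refine sum_involution
      (fun f _ => Function.update f (Fin.last i) (fl (f (Fin.last i)))) ?_ ?_ ?_ ?_
    · intro f _
      have : ∀ l : Fin i, pre (Function.update f (Fin.last i) (fl (f (Fin.last i))))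
          (l.castSucc : Fin (i + 1)) = pre f (l.castSucc : Fin (i + 1)) := by
        intro l
        apply pre_update
        rw [Fin.val_castSucc]
        exact l.isLt
      simp only [this]
      exact CharTwo.add_self_eq_zero _
    · intro f _ _ h
      have := congrFun h (Fin.last i)
      rw [Function.update_self] at this
      exact fl_ne _ this
    · intro f hf
      obtain ⟨a, hal, ha, hl⟩ := hlast f hf
      have hfst : ∀ b, (Function.update f (Fin.last i) (fl (f (Fin.last i))) b).1 = (f b).1 := by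
        intro b
        by_cases hb : b = Fin.last i
        · subst hb
          rw [Function.update_self]
          rfl
        · rw [Function.update_of_ne hb]
      rw [mem_filter, mem_filter, mem_Fac] at hf ⊢
      refine ⟨⟨⟨fun b => ?_, ?_⟩, a, ?_⟩, fun h => ?_⟩
      · rw [hfst]; exact hf.1.1.1 b
      · simp only [hfst]
        exact hf.1.1.2
      · rw [Function.update_of_ne hal]
        exact ha
      · have := hfst (Fin.last i)
        rw [h] at this
        exact hl this.symm
    · intro f _
      simp only [Function.update_self, fl_fl, Function.update_idem, Function.update_eq_self]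
  rw [h5, add_zero]
  apply sum_nbij' (fun f a => f (Fin.castSucc a))
    (fun f => Fin.snoc (α := fun _ => ℕ × Bool) f (i, true))
  · intro f hf
    rw [mem_filter, mem_filter, mem_Fac] at hf
    rw [mem_Fac]
    obtain ⟨⟨⟨hf1, hf2⟩, _⟩, hl⟩ := hf
    constructor
    · intro a
      have h1 := hf1 a.castSucc
      have h2 : (f a.castSucc).1 ≠ i := by
        intro h
        have : a.castSucc = Fin.last i := hf2 (by simp only [hl, h])
        exact (Fin.castSucc_lt_last a).ne this
      omega
    · intro a b hab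
      exact Fin.castSucc_injective i (hf2 hab)
  · intro f hf
    rw [mem_Fac] at hf
    rw [mem_filter, mem_filter, mem_Fac]
    refine ⟨⟨⟨?_, ?_⟩, Fin.last i, Fin.snoc_last _ _⟩, Fin.snoc_last _ _⟩
    · intro a
      refine Fin.lastCases ?_ (fun a => ?_) a
      · rw [Fin.snoc_last]; simp
      · rw [Fin.snoc_castSucc]
        exact (hf.1 a).trans (Nat.lt_succ_self i)
    · intro a b
      refine Fin.lastCases ?_ (fun a => ?_) a
      · refine Fin.lastCases ?_ (fun b => ?_) b
        · intro _; rfl
        · intro h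
          simp only [Fin.snoc_last, Fin.snoc_castSucc] at h
          exact absurd h.symm (hf.1 b).ne
      · refine Fin.lastCases ?_ (fun b => ?_) b
        · intro h
          simp only [Fin.snoc_last, Fin.snoc_castSucc] at h
          exact absurd h (hf.1 a).ne
        · intro h
          simp only [Fin.snoc_castSucc] at h
          rw [hf.2 h]
  · intro f hf
    rw [mem_filter] at hf
    funext a
    refine Fin.lastCases ?_ (fun a => ?_) a
    · rw [Fin.snoc_last]; exact hf.2.symm
    · rw [Fin.snoc_castSucc]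
  · intro f _
    funext a
    simp only [Fin.snoc_castSucc]
  · intro f hf
    rw [mem_filter] at hf
    have hfs : f = Fin.snoc (α := fun _ => ℕ × Bool) (fun a => f (Fin.castSucc a)) (i, true) := by
      funext a
      refine Fin.lastCases ?_ (fun a => ?_) a
      · rw [Fin.snoc_last]; exact hf.2
      · rw [Fin.snoc_castSucc]
    have : ∀ l : Fin i, pre f (l.castSucc : Fin (i + 1)) = pre (fun a => f (Fin.castSucc a)) l := by
      intro l
      conv_lhs => rw [hfs]
      exact pre_snoc _ _ _ (by rw [Fin.val_castSucc]; exact l.isLt)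
    simp only [this]

theorem parity {n : ℕ} (sg : Finset (ℕ × Bool) → Bool)
    (hsg : ∀ S, SV n S → sg (opp S) = !sg S) (i : ℕ) (hi : i ≤ n) :
    ∑ f ∈ Fac i, alt true (fun l : Fin i => sg (pre f l)) = 1 := by
  induction i with
  | zero =>
    have h : Fac 0 = {Fin.elim0} := by
      ext f
      rw [mem_Fac, mem_singleton]
      constructor
      · intro _; funext a; exact a.elim0
      · intro _; exact ⟨fun a => a.elim0, fun a => a.elim0⟩
    rw [h, sum_singleton]
    unfold alt
    rw [if_pos (fun l => l.elim0)]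
  | succ i ih =>
    rw [parity_step sg hsg i hi]
    exact ih (by omega)

theorem exists_alternating {n : ℕ} (sg : Finset (ℕ × Bool) → Bool)
    (hsg : ∀ S, SV n S → sg (opp S) = !sg S) :
    ∃ f ∈ Fac n, ∀ l : Fin n, sg (pre f l) = xor true (decide (Odd (l : ℕ))) := by
  by_contra hcon
  push Not at hcon
  have h := parity sg hsg n le_rfl
  rw [sum_eq_zero] at h
  · exact zero_ne_one h
  · intro f hf
    obtain ⟨l, hl⟩ := hcon f hf
    unfold alt
    rw [if_neg]
    intro h2
    exact hl (h2 l)

/-- Alternating sequences in a sign vector. -/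
def AS (S : Finset (ℕ × Bool)) (b : Bool) (m : ℕ) : Prop :=
  ∃ g : ℕ → ℕ, (∀ i j, i < j → j < m → g i < g j) ∧
    ∀ l < m, (g l, if Even l then b else !b) ∈ S

theorem AS.prepend {S : Finset (ℕ × Bool)} {b : Bool} {m : ℕ} {x : ℕ} {g : ℕ → ℕ}
    (hg : ∀ i j, i < j → j < m → g i < g j)
    (hg' : ∀ l < m, (g l, if Even l then !b else !!b) ∈ S) (hx : (x, b) ∈ S)
    (hlt : 0 < m → x < g 0) : AS S b (m + 1) := by
  refine ⟨fun l => if l = 0 then x else g (l - 1), ?_, ?_⟩
  · intro i j hij hj
    simp only
    rw [if_neg (by omega : ¬ j = 0)]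
    split_ifs with hi
    · rcases Nat.eq_zero_or_pos (j - 1) with h | h
      · rw [h]; exact hlt (by omega)
      · exact (hlt (by omega)).trans (hg 0 (j - 1) h (by omega))
    · exact hg _ _ (by omega) (by omega)
  · intro l hl
    simp only
    split_ifs with h0 he he
    · exact hx
    · subst h0; simp at he
    · have h1 := hg' (l - 1) (by omega)
      have : ¬ Even (l - 1) := by
        intro h2
        have h3 := h2.add_one
        rw [Nat.sub_add_cancel (by omega)] at h3
        exact (Nat.not_even_iff_odd.2 h3) he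
      rw [if_neg this, Bool.not_not] at h1
      exact h1
    · have h1 := hg' (l - 1) (by omega)
      have : Even (l - 1) := by
        by_contra h2
        have h3 := (Nat.not_even_iff_odd.1 h2).add_one
        rw [Nat.sub_add_cancel (by omega)] at h3
        exact he h3
      rw [if_pos this] at h1
      exact h1

theorem AS.both {n : ℕ} {S : Finset (ℕ × Bool)} (hS : SV n S) {m : ℕ} (hm : 1 ≤ m) (b : Bool)
    (h1 : AS S b m) (h2 : AS S (!b) m) : ∃ b', AS S b' (m + 1) := by
  obtain ⟨g, hg, hgS⟩ := h1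
  obtain ⟨g', hg', hgS'⟩ := h2
  have e0 := hgS 0 (by omega)
  have e0' := hgS' 0 (by omega)
  rw [if_pos (by simp)] at e0 e0'
  rcases lt_trichotomy (g 0) (g' 0) with h | h | h
  · exact ⟨b, AS.prepend hg' hgS' e0 (fun _ => h)⟩
  · exfalso
    rw [← h] at e0'
    exact hS.one _ e0 e0'
  · refine ⟨!b, AS.prepend hg ?_ e0' (fun _ => h)⟩
    simpa only [Bool.not_not] using hgS

/-- The coordinates with sign `b`. -/
def side (b : Bool) (S : Finset (ℕ × Bool)) : Finset ℕ :=
  (S.filter (fun x => x.2 = b)).image Prod.fst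

theorem mem_side {b : Bool} {S : Finset (ℕ × Bool)} {a : ℕ} : a ∈ side b S ↔ (a, b) ∈ S := by
  simp only [side, mem_image, mem_filter]
  constructor
  · rintro ⟨⟨x, y⟩, ⟨h1, h2⟩, h3⟩
    simp only at h2 h3
    rw [← h2, ← h3]
    exact h1
  · intro h
    exact ⟨(a, b), ⟨h, rfl⟩, rfl⟩

theorem exists_stab {n k : ℕ} {S : Finset (ℕ × Bool)} (hS : SV n S) {b : Bool}
    (h : AS S b (2 * k)) :
    (∃ A, Stab n k A ∧ A ⊆ side b S) ∧ ∃ B, Stab n k B ∧ B ⊆ side (!b) S := by
  obtain ⟨g, hg, hgS⟩ := h
  have hlt : ∀ l < 2 * k, g l < n := fun l hl => hS.lt _ (hgS l hl)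
  have hinj : ∀ i j, i < 2 * k → j < 2 * k → g i = g j → i = j := by
    intro i j hi hj hij
    rcases lt_trichotomy i j with h | h | h
    · exact absurd hij (hg i j h hj).ne
    · exact h
    · exact absurd hij (hg j i h hi).ne'
  have hgap : ∀ i j, i + 1 < j → j < 2 * k → g i + 1 < g j := by
    intro i j hij hj
    have h1 := hg i (i + 1) (by omega) (by omega)
    have h2 := hg (i + 1) j hij hj
    omega
  constructor
  · refine ⟨(range k).image (fun i => g (2 * i)), ⟨?_, ?_, ?_⟩, ?_⟩
    · intro x hx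
      obtain ⟨i, hi, rfl⟩ := mem_image.1 hx
      rw [mem_range] at hi
      exact hlt _ (by omega)
    · rw [card_image_of_injOn, card_range]
      intro i hi j hj hij
      rw [mem_coe, mem_range] at hi hj
      have := hinj (2 * i) (2 * j) (by omega) (by omega) hij
      omega
    · intro x hx hx'
      obtain ⟨i, hi, rfl⟩ := mem_image.1 hx
      obtain ⟨j, hj, hj'⟩ := mem_image.1 hx'
      rw [mem_range] at hi hj
      have h1 := hg (2 * i) (2 * i + 1) (by omega) (by omega)
      have h2 := hlt (2 * i + 1) (by omega)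
      rw [rot, if_neg (by omega)] at hj'
      rcases lt_trichotomy i j with h | h | h
      · have := hgap (2 * i) (2 * j) (by omega) (by omega)
        omega
      · subst h; omega
      · have := hg (2 * j) (2 * i) (by omega) (by omega)
        omega
    · intro x hx
      obtain ⟨i, hi, rfl⟩ := mem_image.1 hx
      rw [mem_range] at hi
      rw [mem_side]
      have := hgS (2 * i) (by omega)
      rwa [if_pos (by simp)] at this
  · refine ⟨(range k).image (fun i => g (2 * i + 1)), ⟨?_, ?_, ?_⟩, ?_⟩
    · intro x hx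
      obtain ⟨i, hi, rfl⟩ := mem_image.1 hx
      rw [mem_range] at hi
      exact hlt _ (by omega)
    · rw [card_image_of_injOn, card_range]
      intro i hi j hj hij
      rw [mem_coe, mem_range] at hi hj
      have := hinj (2 * i + 1) (2 * j + 1) (by omega) (by omega) hij
      omega
    · intro x hx hx'
      obtain ⟨i, hi, rfl⟩ := mem_image.1 hx
      obtain ⟨j, hj, hj'⟩ := mem_image.1 hx'
      rw [mem_range] at hi hj
      unfold rot at hj'
      split_ifs at hj' with h0
      · have := hg (2 * j) (2 * j + 1) (by omega) (by omega)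
        omega
      · rcases lt_trichotomy i j with h | h | h
        · have := hgap (2 * i + 1) (2 * j + 1) (by omega) (by omega)
          omega
        · subst h; omega
        · have := hg (2 * j + 1) (2 * i + 1) (by omega) (by omega)
          omega
    · intro x hx
      obtain ⟨i, hi, rfl⟩ := mem_image.1 hx
      rw [mem_range] at hi
      rw [mem_side]
      have := hgS (2 * i + 1) (by omega)
      rwa [if_neg (by simp)] at this

/-- The labels carried by a sign vector with a sign. -/
def R (n k : ℕ) (c : Finset ℕ → ℕ) (S : Finset (ℕ × Bool)) (b : Bool) (l : ℕ) : Prop :=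
  (1 ≤ l ∧ l < 2 * k ∧ AS S b l) ∨
    ∃ A, Stab n k A ∧ A ⊆ side b S ∧ 1 ≤ c A ∧ l = 2 * k - 1 + c A

theorem R.mono {n k : ℕ} {c : Finset ℕ → ℕ} {S T : Finset (ℕ × Bool)} (hST : S ⊆ T) {b : Bool}
    {l : ℕ} (h : R n k c S b l) : R n k c T b l := by
  rcases h with ⟨h1, h2, g, hg, hgS⟩ | ⟨A, h1, h2, h3, h4⟩
  · exact Or.inl ⟨h1, h2, g, hg, fun l hl => hST (hgS l hl)⟩
  · refine Or.inr ⟨A, h1, fun x hx => ?_, h3, h4⟩
    rw [mem_side]
    exact hST (mem_side.1 (h2 hx))

theorem R.opp_iff {n k : ℕ} {c : Finset ℕ → ℕ} {S : Finset (ℕ × Bool)} {b : Bool} {l : ℕ} :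
    R n k c (opp S) b l ↔ R n k c S (!b) l := by
  have hAS : ∀ m, AS (opp S) b m ↔ AS S (!b) m := by
    intro m
    unfold AS
    apply exists_congr
    intro g
    apply and_congr_right
    intro _
    apply forall_congr'
    intro l
    apply imp_congr_right
    intro _
    rw [mem_opp]
    simp only [fl]
    split_ifs <;> rfl
  have hside : side b (opp S) = side (!b) S := by
    ext x
    rw [mem_side, mem_side, mem_opp]
    rfl
  unfold R
  rw [hAS, hside]

end Lower

open Lower in
theorem schrijver_lower (n k : ℕ) (hk : 1 ≤ k) (hn : 2 * k ≤ n) (c : Finset ℕ → ℕ)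
    (hc : ∀ A, Stab n k A → c A < n - 2 * k + 1) :
    ∃ A B, Stab n k A ∧ Stab n k B ∧ Disjoint A B ∧ c A = c B := by
  classical
  by_contra hcon
  push Not at hcon
  -- sides of a sign vector are disjoint
  have hdisj : ∀ S, SV n S → ∀ b, Disjoint (side b S) (side (!b) S) := by
    intro S hS b
    rw [disjoint_left]
    intro a h1 h2
    rw [mem_side] at h1 h2
    exact hS.one _ h1 h2
  have hproper : ∀ S, SV n S → ∀ b A B, Stab n k A → Stab n k B → A ⊆ side b S →
      B ⊆ side (!b) S → c A ≠ c B := by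
    intro S hS b A B hA hB hAS hBS
    exact hcon A B hA hB (disjoint_of_subset_left hAS (disjoint_of_subset_right hBS (hdisj S hS b)))
  let P : Finset (ℕ × Bool) → ℕ → Prop := fun S l => R n k c S true l ∨ R n k c S false l
  have hP_b : ∀ S l, P S l ↔ ∃ b, R n k c S b l := by
    intro S l
    constructor
    · rintro (h | h)
      · exact ⟨true, h⟩
      · exact ⟨false, h⟩
    · rintro ⟨b, h⟩
      cases b
      · exact Or.inr h
      · exact Or.inl h
  let lab : Finset (ℕ × Bool) → ℕ := fun S => Nat.findGreatest (P S) n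
  have hbound : ∀ S b l, R n k c S b l → 1 ≤ l ∧ l ≤ n - 1 := by
    rintro S b l (⟨h1, h2, _⟩ | ⟨A, h1, _, h3, h4⟩)
    · omega
    · have := hc A h1
      omega
  have hle : ∀ S b l, R n k c S b l → l ≤ lab S := by
    intro S b l h
    exact Nat.le_findGreatest (by have := hbound S b l h; omega) ((hP_b S l).2 ⟨b, h⟩)
  have hex : ∀ S, SV n S → P S 1 := by
    intro S hS
    obtain ⟨⟨x, b⟩, hx⟩ := hS.ne
    refine (hP_b S 1).2 ⟨b, Or.inl ⟨le_rfl, by omega, fun _ => x, ?_, ?_⟩⟩
    · intro i j hij hj; omega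
    · intro l hl
      have : l = 0 := by omega
      subst this
      rw [if_pos (by simp)]
      exact hx
  have hlab : ∀ S, SV n S → P S (lab S) := by
    intro S hS
    exact Nat.findGreatest_spec (P := P S) (by omega : 1 ≤ n) (hex S hS)
  have hlab_le : ∀ S, SV n S → lab S ≤ n - 1 := by
    intro S hS
    obtain ⟨b, hb⟩ := (hP_b S _).1 (hlab S hS)
    exact (hbound S b _ hb).2
  -- the two signs exclude each other at the top label
  have hexcl : ∀ S, SV n S → ¬ (R n k c S true (lab S) ∧ R n k c S false (lab S)) := by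
    rintro S hS ⟨h1, h2⟩
    rcases h1 with ⟨h11, h12, h13⟩ | ⟨A, h11, h12, h13, h14⟩
    · rcases h2 with ⟨h21, h22, h23⟩ | ⟨B, h21, h22, h23, h24⟩
      · obtain ⟨b', hb'⟩ := AS.both hS h11 true h13 h23
        rcases Nat.lt_or_ge (lab S + 1) (2 * k) with h | h
        · have := hle S b' (lab S + 1) (Or.inl ⟨by omega, h, hb'⟩)
          omega
        · have he : lab S + 1 = 2 * k := by omega
          rw [he] at hb'
          obtain ⟨⟨A, hA, hAS⟩, B, hB, hBS⟩ := exists_stab hS hb'
          have hne := hproper S hS b' A B hA hB hAS hBS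
          rcases Nat.lt_or_ge 0 (c A) with h3 | h3
          · have := hle S b' _ (Or.inr ⟨A, hA, hAS, h3, rfl⟩)
            omega
          · have h4 : 1 ≤ c B := by omega
            have := hle S (!b') _ (Or.inr ⟨B, hB, hBS, h4, rfl⟩)
            omega
      · omega
    · rcases h2 with ⟨h21, h22, h23⟩ | ⟨B, h21, h22, h23, h24⟩
      · omega
      · have := hproper S hS true A B h11 h21 h12 h22
        omega
  have hneglab : ∀ S, lab (opp S) = lab S := by
    intro S
    have : P (opp S) = P S := by
      funext l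
      apply propext
      show R n k c (opp S) true l ∨ R n k c (opp S) false l ↔ R n k c S true l ∨ R n k c S false l
      rw [R.opp_iff, R.opp_iff]
      exact Or.comm
    show Nat.findGreatest (P (opp S)) n = Nat.findGreatest (P S) n
    simp only [this]
  let sg : Finset (ℕ × Bool) → Bool := fun S => decide (R n k c S true (lab S))
  have hsg_b : ∀ S, SV n S → ∀ b, R n k c S b (lab S) ↔ sg S = b := by
    intro S hS b
    have h1 := hlab S hS
    have h2 := hexcl S hS
    cases b
    · simp only [sg, decide_eq_false_iff_not]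
      constructor
      · intro h h'; exact h2 ⟨h', h⟩
      · intro h
        rcases h1 with h3 | h3
        · exact absurd h3 h
        · exact h3
    · simp only [sg, decide_eq_true_eq]
  have hneg_sv : ∀ S, SV n S → SV n (opp S) := by
    intro S hS
    refine ⟨?_, ?_, ?_⟩
    · obtain ⟨x, hx⟩ := hS.ne
      exact ⟨fl x, mem_opp.2 (by rw [fl_fl]; exact hx)⟩
    · intro x hx
      exact hS.lt (fl x) (mem_opp.1 hx)
    · intro x hx hx'
      rw [mem_opp] at hx hx'
      exact hS.one _ hx hx'
  have hanti : ∀ S, SV n S → sg (opp S) = !sg S := by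
    intro S hS
    rw [← hsg_b (opp S) (hneg_sv S hS), R.opp_iff, hneglab, Bool.not_not]
    exact (hsg_b S hS (sg S)).2 rfl
  obtain ⟨f, hf, halt⟩ := exists_alternating sg hanti
  -- labels increase along the chain
  have hgrow : ∀ l : ℕ, ∀ hl : l < n, l + 1 ≤ lab (pre f l) := by
    intro l
    induction l with
    | zero =>
      intro hl
      have hsv : SV n (pre f 0) := pre_sv le_rfl hf ⟨0, hl⟩
      obtain ⟨b, hb⟩ := (hP_b _ _).1 (hex _ hsv)
      exact hle _ b 1 hb
    | succ l ih =>
      intro hl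
      have ih' := ih (by omega)
      have hsv : SV n (pre f l) := pre_sv le_rfl hf ⟨l, by omega⟩
      have hsv' : SV n (pre f (l + 1)) := pre_sv le_rfl hf ⟨l + 1, hl⟩
      have hsub : pre f l ⊆ pre f (l + 1) := by
        intro x hx
        obtain ⟨a, ha, rfl⟩ := mem_pre.1 hx
        exact mem_pre.2 ⟨a, by omega, rfl⟩
      have h1 := (hsg_b _ hsv (sg (pre f l))).2 rfl
      have h2 := hle _ _ _ (h1.mono hsub)
      rcases Nat.lt_or_ge (lab (pre f l)) (lab (pre f (l + 1))) with h | h
      · omega
      · exfalso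
        have he : lab (pre f l) = lab (pre f (l + 1)) := le_antisymm h2 h
        have h3 := h1.mono hsub
        rw [he, hsg_b _ hsv'] at h3
        have a1 := halt ⟨l, by omega⟩
        have a2 := halt ⟨l + 1, hl⟩
        simp only at a1 a2
        rw [a1, a2] at h3
        by_cases ho : Odd l
        · have : ¬ Odd (l + 1) := by rw [Nat.odd_add_one]; exact not_not.2 ho
          simp [ho, this] at h3
        · have : Odd (l + 1) := by rw [Nat.odd_add_one]; exact ho
          simp [ho, this] at h3
  have hfin := hgrow (n - 1) (by omega)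
  have hsv : SV n (pre f (n - 1)) := pre_sv le_rfl hf ⟨n - 1, by omega⟩
  have := hlab_le _ hsv
  omega

end Pool.Agent.Work.MP_b71732_co
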