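import Pool.Agent.Work.MP_b71732_co.Reduce

namespace Pool.Agent.Work.MP_b71732_co

def wp (τ : ℕ → Bool) (i : ℕ) : ℕ := if τ i then 3 * i + 1 else 3 * i + 2
def up (τ : ℕ → Bool) (i : ℕ) : ℕ := if τ i then 3 * i + 2 else 3 * i + 1

/-- first index of the run of type `true` containing an index. -/
def st (τ : ℕ → Bool) : ℕ → ℕ
  | 0 => 0
  | (j + 1) => if τ j then st τ j else j + 1

def pj (τ : ℕ → Bool) (j : ℕ) : ℕ :=
  if τ (j + 1) then j + 2 else if τ j then st τ j else j + 1

def cls (τ : ℕ → Bool) (j : ℕ) : Finset ℕ := {up τ j, wp τ (j + 1), 3 * pj τ j}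

def cls0 (τ : ℕ → Bool) : Finset ℕ := {wp τ 0, if τ 0 then 3 else 0}

theorem run_end (k : ℕ) (τ : ℕ → Bool) (hτ : τ (k - 1) = false) :
    ∀ m i, i + m = k - 1 → τ i = true →
      ∃ e, e < k - 1 ∧ τ e = true ∧ τ (e + 1) = false ∧ st τ e = st τ i := by
  intro m
  induction m with
  | zero =>
    intro i hi hti
    rw [show i = k - 1 by omega, hτ] at hti
    exact absurd hti (by simp)
  | succ m ih =>
    intro i hi hti
    cases h : τ (i + 1) with
    | false => exact ⟨i, by omega, hti, h, rfl⟩
    | true =>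
      obtain ⟨e, h1, h2, h3, h4⟩ := ih (i + 1) (by omega) h
      refine ⟨e, h1, h2, h3, ?_⟩
      rw [h4]
      simp only [st, hti, if_true]

theorem cover (k : ℕ) (τ : ℕ → Bool) (hτ : τ (k - 1) = false) (x : ℕ) (hx : x < 3 * k) :
    x = up τ (k - 1) ∨ x ∈ cls0 τ ∨ ∃ i < k - 1, x ∈ cls τ i := by
  obtain ⟨i, r, hr, rfl⟩ : ∃ i r, r < 3 ∧ x = 3 * i + r :=
    ⟨x / 3, x % 3, Nat.mod_lt _ (by omega), by omega⟩
  have hik : i < k := by omega
  by_cases h0 : r = 0
  · subst h0
    simp only [Nat.add_zero]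
    -- run starting at i
    have hrun : τ i = true → st τ i = i → 3 * i = up τ (k - 1) ∨ 3 * i ∈ cls0 τ ∨
        ∃ i' < k - 1, 3 * i ∈ cls τ i' := by
      intro hti hst
      obtain ⟨e, h1, h2, h3, h4⟩ := run_end k τ hτ (k - 1 - i) i (by omega) hti
      refine Or.inr (Or.inr ⟨e, h1, ?_⟩)
      have : pj τ e = i := by
        unfold pj; rw [h3, h2]; simp only [Bool.false_eq_true, if_false, if_true]
        rw [h4, hst]
      simp only [cls, Finset.mem_insert, Finset.mem_singleton, this]
      simp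
    cases i with
    | zero =>
      cases h : τ 0 with
      | false =>
        right; left
        simp [cls0, h]
      | true => exact hrun h rfl
    | succ i =>
      cases h : τ i with
      | false =>
        cases h' : τ (i + 1) with
        | false =>
          refine Or.inr (Or.inr ⟨i, by omega, ?_⟩)
          simp [cls, pj, h, h']
        | true =>
          apply hrun h'
          simp [st, h]
      | true =>
        cases i with
        | zero =>
          right; left
          simp [cls0, h]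
        | succ i =>
          refine Or.inr (Or.inr ⟨i, by omega, ?_⟩)
          simp [cls, pj, h]
  · have h1 : 3 * i + r = wp τ i ∨ 3 * i + r = up τ i := by
      unfold wp up
      split_ifs <;> omega
    rcases h1 with h1 | h1
    · rw [h1]
      cases i with
      | zero => right; left; simp [cls0]
      | succ i =>
        refine Or.inr (Or.inr ⟨i, by omega, ?_⟩)
        simp [cls]
    · rw [h1]
      by_cases h2 : i = k - 1
      · left; rw [h2]
      · refine Or.inr (Or.inr ⟨i, by omega, ?_⟩)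
        simp [cls]

open Classical in
/-- the colouring. -/
noncomputable def col (k : ℕ) (τ : ℕ → Bool) (A : Finset ℕ) : ℕ :=
  if up τ (k - 1) ∈ A then k - 1
  else if h : ∃ i, i < k - 1 ∧ 2 ≤ (A ∩ cls τ i).card then Nat.find h else k

theorem col_lt (k : ℕ) (τ : ℕ → Bool) (A : Finset ℕ) : col k τ A < k + 1 := by
  unfold col
  split_ifs with h1 h2
  · omega
  · have := (Nat.find_spec h2).1
    omega
  · omega

theorem card_cls (τ : ℕ → Bool) (i : ℕ) : (cls τ i).card ≤ 3 := Finset.card_le_three

theorem card_cls0 (τ : ℕ → Bool) : (cls0 τ).card ≤ 2 := Finset.card_le_two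

theorem col_cases (k : ℕ) (_hk : 1 ≤ k) (τ : ℕ → Bool) (A : Finset ℕ) :
    (col k τ A = k - 1 ∧ up τ (k - 1) ∈ A) ∨
    (col k τ A < k - 1 ∧ 2 ≤ (A ∩ cls τ (col k τ A)).card) ∨
    (col k τ A = k ∧ up τ (k - 1) ∉ A ∧ ∀ i < k - 1, (A ∩ cls τ i).card ≤ 1) := by
  unfold col
  split_ifs with h1 h2
  · left; exact ⟨rfl, h1⟩
  · right; left; exact Nat.find_spec h2
  · right; right
    refine ⟨rfl, h1, fun i hi => ?_⟩
    by_contra hc
    exact h2 ⟨i, hi, by omega⟩

theorem star_card (k : ℕ) (τ : ℕ → Bool) (hτ : τ (k - 1) = false) (A : Finset ℕ)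
    (hlt : ∀ x ∈ A, x < 3 * k) (hc : A.card = k) (hu : up τ (k - 1) ∉ A) :
    k ≤ (A ∩ cls0 τ).card + ∑ i ∈ Finset.range (k - 1), (A ∩ cls τ i).card := by
  have hsub : A ⊆ (A ∩ cls0 τ) ∪ (Finset.range (k - 1)).biUnion (fun i => A ∩ cls τ i) := by
    intro x hx
    rw [Finset.mem_union, Finset.mem_biUnion]
    rcases cover k τ hτ x (hlt x hx) with h | h | ⟨i, hi, h⟩
    · exact absurd (h ▸ hx) hu
    · left; exact Finset.mem_inter.2 ⟨hx, h⟩
    · right; exact ⟨i, Finset.mem_range.2 hi, Finset.mem_inter.2 ⟨hx, h⟩⟩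
  calc k = A.card := hc.symm
    _ ≤ _ := Finset.card_le_card hsub
    _ ≤ _ := Finset.card_union_le _ _
    _ ≤ _ := by
      apply Nat.add_le_add_left
      exact Finset.card_biUnion_le

theorem star_nonempty (k : ℕ) (hk : 1 ≤ k) (τ : ℕ → Bool) (hτ : τ (k - 1) = false)
    (A : Finset ℕ)
    (hlt : ∀ x ∈ A, x < 3 * k) (hc : A.card = k) (hu : up τ (k - 1) ∉ A)
    (hle : ∀ i < k - 1, (A ∩ cls τ i).card ≤ 1) :
    1 ≤ (A ∩ cls0 τ).card ∧
    ((A ∩ cls0 τ).card ≤ 1 → ∀ i < k - 1, (A ∩ cls τ i).Nonempty) := by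
  have h1 := star_card k τ hτ A hlt hc hu
  have h2 : ∑ i ∈ Finset.range (k - 1), (A ∩ cls τ i).card ≤ k - 1 := by
    calc _ ≤ ∑ i ∈ Finset.range (k - 1), 1 :=
          Finset.sum_le_sum (fun i hi => hle i (Finset.mem_range.1 hi))
      _ = k - 1 := by simp
  refine ⟨by omega, fun h3 i hi => ?_⟩
  by_contra hne
  rw [Finset.not_nonempty_iff_eq_empty] at hne
  have h4 : ∑ i ∈ Finset.range (k - 1), (A ∩ cls τ i).card < ∑ i ∈ Finset.range (k - 1), 1 := by
    apply Finset.sum_lt_sum
    · exact fun i hi => hle i (Finset.mem_range.1 hi)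
    · exact ⟨i, Finset.mem_range.2 hi, by rw [hne]; simp⟩
  simp only [Finset.sum_const, Finset.card_range, smul_eq_mul, mul_one] at h4
  omega

/-- two disjoint sets meeting a class outside a common missed element. -/
theorem two_of_three {A B : Finset ℕ} {a b c : ℕ} (hd : Disjoint A B)
    (hA : (A ∩ {a, b, c}).Nonempty) (hB : (B ∩ {a, b, c}).Nonempty)
    (ha : a ∉ A) (hb : a ∉ B) : (b ∈ A ∧ c ∈ B) ∨ (b ∈ B ∧ c ∈ A) := by
  rw [Finset.disjoint_left] at hd
  obtain ⟨x, hx⟩ := hA
  obtain ⟨y, hy⟩ := hB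
  simp only [Finset.mem_inter, Finset.mem_insert, Finset.mem_singleton] at hx hy
  obtain ⟨hxA, hx⟩ := hx
  obtain ⟨hyB, hy⟩ := hy
  rcases hx with rfl | rfl | rfl
  · exact absurd hxA ha
  · rcases hy with rfl | rfl | rfl
    · exact absurd hyB hb
    · exact absurd hyB (hd hxA)
    · exact Or.inl ⟨hxA, hyB⟩
  · rcases hy with rfl | rfl | rfl
    · exact absurd hyB hb
    · exact Or.inr ⟨hyB, hxA⟩
    · exact absurd hyB (hd hxA)

def EE (τ : ℕ → Bool) (A B : Finset ℕ) (j : ℕ) : Prop :=
  wp τ j ∈ B ∧ up τ j ∉ A ∧ up τ j ∉ B ∧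
    (τ j = true → 3 * (j + 1) ∈ A ∧ 3 * st τ j ∉ B) ∧ (τ j = false → 3 * j ∈ A)

def FF (τ : ℕ → Bool) (A B : Finset ℕ) (j : ℕ) : Prop :=
  τ j = true ∧ wp τ j ∈ A ∧ up τ j ∉ A ∧ up τ j ∉ B ∧
    3 * (j + 1) ∈ B ∧ 3 * st τ j ∉ A ∧ 3 * st τ j ∉ B

theorem stepE {τ : ℕ → Bool} {A B : Finset ℕ} {j : ℕ} (hA1 : ∀ x ∈ A, x + 1 ∉ A)
    (hB1 : ∀ x ∈ B, x + 1 ∉ B) (hd : Disjoint A B)
    (hA : (A ∩ cls τ j).Nonempty) (hB : (B ∩ cls τ j).Nonempty) (h : EE τ A B j) :
    EE τ A B (j + 1) ∨ FF τ A B (j + 1) := by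
  obtain ⟨h1, h2, h3, h4, h5⟩ := h
  have hd' := Finset.disjoint_left.1 hd
  have h6 := two_of_three hd hA hB h2 h3
  cases ht : τ j with
  | false =>
    have h7 := h5 ht
    have hw : 3 * j + 2 ∈ B := by simpa [wp, ht] using h1
    have h8 : 3 * (j + 1) ∉ B := by
      have := hB1 _ hw
      rwa [show 3 * j + 2 + 1 = 3 * (j + 1) by ring] at this
    cases ht' : τ (j + 1) with
    | false =>
      simp only [pj, wp, ht, ht', Bool.false_eq_true, if_false] at h6
      rcases h6 with h6 | h6
      · exact absurd h6.2 h8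
      · left
        refine ⟨?_, ?_, ?_, ?_, ?_⟩
        · simpa [wp, ht'] using h6.1
        · simpa [up, ht'] using hA1 _ h6.2
        · simp only [up, ht', Bool.false_eq_true, if_false]
          intro hc
          exact hB1 _ hc h6.1
        · intro hc; rw [ht'] at hc; exact absurd hc (by simp)
        · intro _; exact h6.2
    | true =>
      simp only [pj, wp, ht', if_true] at h6
      have hst : st τ (j + 1) = j + 1 := by simp [st, ht]
      rcases h6 with h6 | h6
      · right
        refine ⟨ht', ?_, ?_, ?_, ?_, ?_, ?_⟩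
        · simpa [wp, ht'] using h6.1
        · simpa [up, ht'] using hA1 _ h6.1
        · simp only [up, ht', if_true]
          intro hc
          apply hB1 _ hc
          rw [show 3 * (j + 1) + 2 + 1 = 3 * (j + 2) by ring]
          exact h6.2
        · exact h6.2
        · rw [hst]; intro hc; exact hA1 _ hc h6.1
        · rw [hst]; exact h8
      · left
        refine ⟨?_, ?_, ?_, ?_, ?_⟩
        · simpa [wp, ht'] using h6.1
        · simp only [up, ht', if_true]
          intro hc
          apply hA1 _ hc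
          rw [show 3 * (j + 1) + 2 + 1 = 3 * (j + 2) by ring]
          exact h6.2
        · simpa [up, ht'] using hB1 _ h6.1
        · intro _
          refine ⟨h6.2, ?_⟩
          rw [hst]; exact h8
        · intro hc; rw [ht'] at hc; exact absurd hc (by simp)
  | true =>
    obtain ⟨h7, h8⟩ := h4 ht
    have hst : st τ (j + 1) = st τ j := by simp [st, ht]
    cases ht' : τ (j + 1) with
    | false =>
      simp only [pj, wp, ht, ht', Bool.false_eq_true, if_false, if_true] at h6
      rcases h6 with h6 | h6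
      · exact absurd h6.2 h8
      · left
        refine ⟨?_, ?_, ?_, ?_, ?_⟩
        · simpa [wp, ht'] using h6.1
        · simpa [up, ht'] using hA1 _ h7
        · simp only [up, ht', Bool.false_eq_true, if_false]
          intro hc
          exact hB1 _ hc h6.1
        · intro hc; rw [ht'] at hc; exact absurd hc (by simp)
        · intro _; exact h7
    | true =>
      simp only [pj, wp, ht', if_true] at h6
      rcases h6 with h6 | h6
      · exact absurd h6.1 (hA1 _ h7)
      · left
        refine ⟨?_, ?_, ?_, ?_, ?_⟩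
        · simpa [wp, ht'] using h6.1
        · simp only [up, ht', if_true]
          intro hc
          apply hA1 _ hc
          rw [show 3 * (j + 1) + 2 + 1 = 3 * (j + 2) by ring]
          exact h6.2
        · simpa [up, ht'] using hB1 _ h6.1
        · intro _
          refine ⟨h6.2, ?_⟩
          rw [hst]; exact h8
        · intro hc; rw [ht'] at hc; exact absurd hc (by simp)

theorem stepF {τ : ℕ → Bool} {A B : Finset ℕ} {j : ℕ} (hA1 : ∀ x ∈ A, x + 1 ∉ A)
    (hB1 : ∀ x ∈ B, x + 1 ∉ B) (hd : Disjoint A B)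
    (hA : (A ∩ cls τ j).Nonempty) (hB : (B ∩ cls τ j).Nonempty) (h : FF τ A B j) :
    FF τ A B (j + 1) := by
  obtain ⟨ht, h1, h2, h3, h4, h5, h5'⟩ := h
  have hd' := Finset.disjoint_left.1 hd
  have h6 := two_of_three hd hA hB h2 h3
  have hst : st τ (j + 1) = st τ j := by simp [st, ht]
  cases ht' : τ (j + 1) with
  | false =>
    simp only [pj, wp, ht, ht', Bool.false_eq_true, if_false, if_true] at h6
    rcases h6 with h6 | h6
    · exact absurd h6.2 h5'
    · exact absurd h6.2 h5
  | true =>
    simp only [pj, wp, ht', if_true] at h6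
    rcases h6 with h6 | h6
    · refine ⟨ht', ?_, ?_, ?_, ?_, ?_, ?_⟩
      · simpa [wp, ht'] using h6.1
      · simpa [up, ht'] using hA1 _ h6.1
      · simp only [up, ht', if_true]
        intro hc
        apply hB1 _ hc
        rw [show 3 * (j + 1) + 2 + 1 = 3 * (j + 2) by ring]
        exact h6.2
      · exact h6.2
      · rw [hst]; exact h5
      · rw [hst]; exact h5'
    · exact absurd h6.1 (hB1 _ h4)

theorem noF {k : ℕ} {τ : ℕ → Bool} (hτ : τ (k - 1) = false) {A B : Finset ℕ}
    (hA1 : ∀ x ∈ A, x + 1 ∉ A)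
    (hB1 : ∀ x ∈ B, x + 1 ∉ B) (hd : Disjoint A B)
    (hA : ∀ i < k - 1, (A ∩ cls τ i).Nonempty) (hB : ∀ i < k - 1, (B ∩ cls τ i).Nonempty) :
    ∀ m j, j + m = k - 1 → ¬ FF τ A B j := by
  intro m
  induction m with
  | zero =>
    intro j hj h
    have := h.1
    rw [show j = k - 1 by omega, hτ] at this
    exact absurd this (by simp)
  | succ m ih =>
    intro j hj h
    exact ih (j + 1) (by omega) (stepF hA1 hB1 hd (hA j (by omega)) (hB j (by omega)) h)

theorem allE {k : ℕ} {τ : ℕ → Bool} (hτ : τ (k - 1) = false) {A B : Finset ℕ}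
    (hA1 : ∀ x ∈ A, x + 1 ∉ A)
    (hB1 : ∀ x ∈ B, x + 1 ∉ B) (hd : Disjoint A B)
    (hA : ∀ i < k - 1, (A ∩ cls τ i).Nonempty) (hB : ∀ i < k - 1, (B ∩ cls τ i).Nonempty)
    (h0 : wp τ 0 ∈ B) (h0' : (if τ 0 then 3 else 0) ∈ A) :
    ∀ j < k, EE τ A B j := by
  intro j
  induction j with
  | zero =>
    intro _
    cases ht : τ 0 with
    | false =>
      simp only [wp, ht, Bool.false_eq_true, if_false, Nat.mul_zero, Nat.zero_add] at h0 h0'
      refine ⟨by simpa [wp, ht] using h0, ?_, ?_, ?_, ?_⟩
      · simpa [up, ht] using hA1 _ h0'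
      · simp only [up, ht, Bool.false_eq_true, if_false]
        intro hc
        exact hB1 _ hc h0
      · intro hc; rw [ht] at hc; exact absurd hc (by simp)
      · intro _; exact h0'
    | true =>
      simp only [wp, ht, if_true, Nat.mul_zero, Nat.zero_add] at h0 h0'
      refine ⟨by simpa [wp, ht] using h0, ?_, ?_, ?_, ?_⟩
      · simp only [up, ht, if_true]
        intro hc
        exact hA1 _ hc h0'
      · simpa [up, ht] using hB1 _ h0
      · intro _
        refine ⟨h0', ?_⟩
        simp only [st, Nat.mul_zero]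
        intro hc
        exact hB1 _ hc h0
      · intro hc; rw [ht] at hc; exact absurd hc (by simp)
  | succ j ih =>
    intro hj
    rcases stepE hA1 hB1 hd (hA j (by omega)) (hB j (by omega)) (ih (by omega)) with h | h
    · exact h
    · exact absurd h (noF hτ hA1 hB1 hd hA hB (k - 1 - (j + 1)) (j + 1) (by omega))

theorem base (k : ℕ) (hk : 1 ≤ k) (τ : ℕ → Bool) (hτ : τ (k - 1) = false) :
    Good (3 * k) k (k + 1) ((Finset.range k).image (fun i => 3 * i))
      ((Finset.range k).image (wp τ)) := by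
  refine ⟨col k τ, fun A _ => col_lt k τ A, ?_⟩
  intro A B hA hB hd he
  have hadj : ∀ C, Stab (3 * k) k C → ∀ x ∈ C, x + 1 ∉ C := by
    intro C hC x hx hx1
    have h1 := hC.lt _ hx1
    have h2 := hC.adj x hx
    have h3 : rot (3 * k) x = x + 1 := by unfold rot; split_ifs <;> omega
    rw [h3] at h2
    exact h2 hx1
  have hd' := Finset.disjoint_left.1 hd
  have hcardV : ((Finset.range k).image (fun i => 3 * i)).card = k := by
    rw [Finset.card_image_of_injective _ (fun a b h => by simpa using h), Finset.card_range]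
  have hcardW : ((Finset.range k).image (wp τ)).card = k := by
    rw [Finset.card_image_of_injective, Finset.card_range]
    intro a b h
    unfold wp at h
    split_ifs at h <;> omega
  have fin : ∀ A B, Stab (3 * k) k A → Stab (3 * k) k B → Disjoint A B →
      (∀ j < k, EE τ A B j) →
      A = (Finset.range k).image (fun i => 3 * i) ∧ B = (Finset.range k).image (wp τ) := by
    intro A B hA hB hd hE
    have hd' := Finset.disjoint_left.1 hd
    constructor
    · apply Finset.eq_of_subset_of_card_le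
      · intro x hx
        rw [Finset.mem_image]
        have hxl := hA.lt x hx
        by_cases hr : x % 3 = 0
        · exact ⟨x / 3, Finset.mem_range.2 (by omega), by show 3 * (x / 3) = x; omega⟩
        · exfalso
          have h1 : x = wp τ (x / 3) ∨ x = up τ (x / 3) := by
            unfold wp up
            split_ifs <;> omega
          have h2 := hE (x / 3) (by omega)
          rcases h1 with h1 | h1
          · have h3 := h2.1
            rw [← h1] at h3
            exact hd' hx h3
          · have h3 := h2.2.1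
            rw [← h1] at h3
            exact h3 hx
      · rw [hcardV, hA.card]
    · symm
      apply Finset.eq_of_subset_of_card_le
      · intro x hx
        rw [Finset.mem_image] at hx
        obtain ⟨i, hi, rfl⟩ := hx
        exact (hE i (Finset.mem_range.1 hi)).1
      · rw [hcardW, hB.card]
  rcases col_cases k hk τ A with ⟨h1, h2⟩ | ⟨h1, h2⟩ | ⟨h1, h2, h3⟩
  · -- colour k - 1
    exfalso
    rcases col_cases k hk τ B with ⟨h4, h5⟩ | ⟨h4, h5⟩ | ⟨h4, h5, h6⟩
    · exact hd' h2 h5
    · omega
    · omega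
  · exfalso
    rcases col_cases k hk τ B with ⟨h4, h5⟩ | ⟨h4, h5⟩ | ⟨h4, h5, h6⟩
    · omega
    · rw [← he] at h5
      have h6 : (A ∩ cls τ (col k τ A)).card + (B ∩ cls τ (col k τ A)).card ≤ 3 := by
        rw [← Finset.card_union_of_disjoint]
        · refine le_trans (Finset.card_le_card ?_) (card_cls τ (col k τ A))
          exact Finset.union_subset Finset.inter_subset_right Finset.inter_subset_right
        · exact Finset.disjoint_of_subset_left Finset.inter_subset_left
            (Finset.disjoint_of_subset_right Finset.inter_subset_left hd)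
      omega
    · omega
  · rcases col_cases k hk τ B with ⟨h4, h5⟩ | ⟨h4, h5⟩ | ⟨h4, h5, h6⟩
    · omega
    · omega
    · obtain ⟨a1, a2⟩ := star_nonempty k hk τ hτ A hA.lt hA.card h2 h3
      obtain ⟨b1, b2⟩ := star_nonempty k hk τ hτ B hB.lt hB.card h5 h6
      have h7 : (A ∩ cls0 τ).card + (B ∩ cls0 τ).card ≤ 2 := by
        rw [← Finset.card_union_of_disjoint]
        · refine le_trans (Finset.card_le_card ?_) (card_cls0 τ)
          exact Finset.union_subset Finset.inter_subset_right Finset.inter_subset_right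
        · exact Finset.disjoint_of_subset_left Finset.inter_subset_left
            (Finset.disjoint_of_subset_right Finset.inter_subset_left hd)
      have a3 := a2 (by omega)
      have b3 := b2 (by omega)
      obtain ⟨x, hx⟩ := Finset.card_pos.1 (show 0 < (A ∩ cls0 τ).card by omega)
      obtain ⟨y, hy⟩ := Finset.card_pos.1 (show 0 < (B ∩ cls0 τ).card by omega)
      simp only [cls0, Finset.mem_inter, Finset.mem_insert, Finset.mem_singleton] at hx hy
      have hxy : x ≠ y := fun h => hd' hx.1 (h ▸ hy.1)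
      have hor : (wp τ 0 ∈ B ∧ (if τ 0 then 3 else 0) ∈ A) ∨
          (wp τ 0 ∈ A ∧ (if τ 0 then 3 else 0) ∈ B) := by
        rcases hx.2 with h8 | h8 <;> rcases hy.2 with h9 | h9
        · exact absurd (h8.trans h9.symm) hxy
        · right; exact ⟨h8 ▸ hx.1, h9 ▸ hy.1⟩
        · left; exact ⟨h9 ▸ hy.1, h8 ▸ hx.1⟩
        · exact absurd (h8.trans h9.symm) hxy
      rcases hor with ⟨h8, h9⟩ | ⟨h8, h9⟩
      · left
        exact fin A B hA hB hd (allE hτ (hadj A hA) (hadj B hB) hd a3 b3 h8 h9)
      · right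
        exact (fin B A hB hA hd.symm
          (allE hτ (hadj B hB) (hadj A hA) hd.symm b3 a3 h8 h9)).symm

end Pool.Agent.Work.MP_b71732_co
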