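import Pool.Agent.Work.MP_b71732_co.Base

namespace Pool.Agent.Work.MP_b71732_co

theorem base_norm {n k : ℕ} {V W : Finset ℕ} (hn : 3 ≤ n) (hD : Dat n k V W)
    (h3 : n - 3 ∈ V) (h1 : n - 1 ∈ W) (hg : ∀ y ∈ V, rot n (rot n y) ∉ V) :
    Good n k (n - 2 * k + 1) V W := by
  have hVW := Finset.disjoint_left.1 hD.disj
  have h1V : n - 1 ∉ V := fun hc => hVW hc h1
  have r3 : rot n (n - 3) = n - 2 := by unfold rot; split_ifs <;> omega
  have r2 : rot n (n - 2) = n - 1 := by unfold rot; split_ifs <;> omega
  have r1 : rot n (n - 1) = 0 := by unfold rot; split_ifs <;> omega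
  have all3 : ∀ y ∈ V, rot n (rot n (rot n y)) ∈ V := by
    intro y hy
    rcases hD.reg (rot n y) (rot_lt (hD.sV.lt y hy)) with h | h | h
    · exact absurd h (hD.sV.adj y hy)
    · exact absurd h (hg y hy)
    · exact h
  have h0 : 0 ∈ V := by
    have := all3 _ h3
    rwa [r3, r2, r1] at this
  have hr : ∀ x, x + 1 < n → rot n x = x + 1 := by
    intro x hx; unfold rot; split_ifs <;> omega
  have hmul : ∀ i, 3 * i < n → 3 * i ∈ V := by
    intro i
    induction i with
    | zero => intro _; exact h0
    | succ i ih =>
      intro hi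
      have h4 := all3 _ (ih (by omega))
      rw [hr (3 * i) (by omega), hr (3 * i + 1) (by omega), hr (3 * i + 1 + 1) (by omega)] at h4
      rwa [show 3 * (i + 1) = 3 * i + 1 + 1 + 1 by ring]
  have hmod : n % 3 = 0 := by
    by_contra hc
    have h4 := hmul (n / 3) (by omega)
    by_cases h5 : n % 3 = 1
    · rw [show 3 * (n / 3) = n - 1 by omega] at h4
      exact h1V h4
    · rw [show 3 * (n / 3) = n - 2 by omega, ← r3] at h4
      exact hD.sV.adj _ h3 h4
  have hV : V = (Finset.range (n / 3)).image (fun i => 3 * i) := by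
    ext x
    rw [Finset.mem_image]
    constructor
    · intro hx
      have hxl := hD.sV.lt x hx
      have h4 : x % 3 = 0 := by
        by_contra hc
        have h5 := hmul (x / 3) (by omega)
        by_cases h6 : x % 3 = 1
        · apply hD.sV.adj _ h5
          rw [hr (3 * (x / 3)) (by omega), show 3 * (x / 3) + 1 = x by omega]
          exact hx
        · apply hg _ h5
          rw [hr (3 * (x / 3)) (by omega), hr (3 * (x / 3) + 1) (by omega),
            show 3 * (x / 3) + 1 + 1 = x by omega]
          exact hx
      exact ⟨x / 3, Finset.mem_range.2 (by omega), by show 3 * (x / 3) = x; omega⟩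
    · rintro ⟨i, hi, rfl⟩
      rw [Finset.mem_range] at hi
      exact hmul i (by omega)
  have hk : k = n / 3 := by
    have h4 := hD.sV.card
    rw [hV, Finset.card_image_of_injective _ (fun a b h => by simpa using h),
      Finset.card_range] at h4
    exact h4.symm
  have hn3 : n = 3 * k := by omega
  have hk1 : 1 ≤ k := by omega
  classical
  let τ : ℕ → Bool := fun i => decide (3 * i + 1 ∈ W)
  have hW : W = (Finset.range k).image (wp τ) := by
    symm
    apply Finset.eq_of_subset_of_card_le
    · intro x hx
      rw [Finset.mem_image] at hx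
      obtain ⟨i, hi, rfl⟩ := hx
      rw [Finset.mem_range] at hi
      by_cases h4 : 3 * i + 1 ∈ W
      · have : wp τ i = 3 * i + 1 := by
          unfold wp; rw [if_pos]; simp only [τ, decide_eq_true_eq]; exact h4
        rw [this]; exact h4
      · have : wp τ i = 3 * i + 2 := by
          unfold wp; rw [if_neg]; simp only [τ, decide_eq_true_eq]; exact h4
        rw [this]
        rcases gap_mem hD _ (hmul i (by omega)) with h5 | h5
        · rw [hr (3 * i) (by omega)] at h5; exact absurd h5 h4
        · rw [hr (3 * i) (by omega), hr (3 * i + 1) (by omega)] at h5; exact h5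
    · rw [hD.sW.card, Finset.card_image_of_injective, Finset.card_range]
      intro a b h
      unfold wp at h
      split_ifs at h <;> omega
  have hτ : τ (k - 1) = false := by
    simp only [τ, decide_eq_false_iff_not]
    intro hc
    rw [show 3 * (k - 1) + 1 = n - 2 by omega] at hc
    apply hD.sW.adj _ hc
    rw [r2]; exact h1
  have hb := base k hk1 τ hτ
  rw [← hW, hk, ← hV, ← hk, ← hn3] at hb
  rwa [show n - 2 * k + 1 = k + 1 by omega]

theorem no_gap_case {n k : ℕ} {V W : Finset ℕ} (hn : 3 ≤ n) (hD : Dat n k V W)
    (x : ℕ) (hx : x ∈ V) (hx2 : rot n (rot n x) ∈ W)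
    (hg : ∀ y ∈ V, rot n (rot n y) ∉ V) :
    Good n k (n - 2 * k + 1) V W := by
  refine rotate_to (fun x V W => x ∈ V ∧ rot n (rot n x) ∈ W ∧ ∀ y ∈ V, rot n (rot n y) ∉ V)
    ?_ (n - 3) (by omega) ?_ x V W (hD.sV.lt x hx) hD ⟨hx, hx2, hg⟩
  · rintro x V W hxn hD ⟨h1, h2, h3⟩
    refine ⟨(mem_rotS hD.sV.lt hxn).2 h1, (mem_rotS hD.sW.lt (rot_lt (rot_lt hxn))).2 h2, ?_⟩
    intro y hy
    obtain ⟨z, hz, rfl⟩ := rot_surj (rotS_lt hD.sV.lt y hy)
    rw [mem_rotS hD.sV.lt hz] at hy
    rw [mem_rotS hD.sV.lt (rot_lt (rot_lt hz))]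
    exact h3 z hy
  · rintro V W hD ⟨h1, h2, h3⟩
    have r3 : rot n (rot n (n - 3)) = n - 1 := by unfold rot; split_ifs <;> omega
    rw [r3] at h2
    exact base_norm hn hD h1 h2 h3

theorem main : ∀ n k V W, 1 ≤ k → 2 * k ≤ n → Dat n k V W → Good n k (n - 2 * k + 1) V W := by
  intro n
  induction n using Nat.strong_induction_on with
  | _ n ih =>
    intro k V W hk hn hD
    by_cases hn2 : n = 2
    · subst hn2
      have hk1 : k = 1 := by omega
      subst hk1
      refine ⟨fun _ => 0, fun _ _ => Nat.succ_pos _, ?_⟩
      intro A B hA hB hd _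
      obtain ⟨a, rfl⟩ := Finset.card_eq_one.1 hA.card
      obtain ⟨b, rfl⟩ := Finset.card_eq_one.1 hB.card
      obtain ⟨v, hv⟩ := Finset.card_eq_one.1 hD.sV.card
      obtain ⟨w, hw⟩ := Finset.card_eq_one.1 hD.sW.card
      subst hv; subst hw
      have h1 := hA.lt a (by simp)
      have h2 := hB.lt b (by simp)
      have h3 := hD.sV.lt v (by simp)
      have h4 := hD.sW.lt w (by simp)
      have h5 : a ≠ b := by simpa using hd
      have h6 : v ≠ w := by simpa using hD.disj
      simp only [Finset.singleton_inj]
      omega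
    · have hn3 : 3 ≤ n := by omega
      by_cases hgap : ∃ x ∈ V, rot n (rot n x) ∈ V
      · obtain ⟨x, hx, hx2⟩ := hgap
        refine rotate_to (fun x V _ => x ∈ V ∧ rot n (rot n x) ∈ V)
          ?_ (n - 3) (by omega) ?_ x V W (hD.sV.lt x hx) hD ⟨hx, hx2⟩
        · rintro x V W hxn hD ⟨h1, h2⟩
          exact ⟨(mem_rotS hD.sV.lt hxn).2 h1,
            (mem_rotS hD.sV.lt (rot_lt (rot_lt hxn))).2 h2⟩
        · rintro V W hD ⟨h1, h2⟩
          have r3 : rot n (rot n (n - 3)) = n - 1 := by unfold rot; split_ifs <;> omega
          rw [r3] at h2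
          have hk2 : 2 ≤ k := by
            rw [← hD.sV.card]
            have : ({n - 3, n - 1} : Finset ℕ).card = 2 :=
              Finset.card_pair (by omega)
            rw [← this]
            apply Finset.card_le_card
            intro y hy
            simp only [Finset.mem_insert, Finset.mem_singleton] at hy
            rcases hy with rfl | rfl
            · exact h1
            · exact h2
          have hD' := dat_reduce (by omega) hD h1 h2
          have hG := ih (n - 2) (by omega) (k - 1) _ _ (by omega) (by omega) hD'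
          rw [show n - 2 - 2 * (k - 1) + 1 = n - 2 * k + 1 by omega] at hG
          exact reduce (by omega) hk hD h1 h2 hG
      · have hg : ∀ y ∈ V, rot n (rot n y) ∉ V := fun y hy hc => hgap ⟨y, hy, hc⟩
        by_cases ht : ∃ x ∈ V, rot n (rot n x) ∈ W
        · obtain ⟨x, hx, hx2⟩ := ht
          exact no_gap_case hn3 hD x hx hx2 hg
        · -- all blocks of the first type: exchange V and W
          have hall : ∀ v ∈ V, rot n v ∈ W := by
            intro v hv
            rcases gap_mem hD v hv with h | h
            · exact h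
            · exact absurd ⟨v, hv, h⟩ ht
          have hWV : W = rotS n V := by
            symm
            apply Finset.eq_of_subset_of_card_le
            · intro y hy
              unfold rotS at hy
              rw [Finset.mem_image] at hy
              obtain ⟨v, hv, rfl⟩ := hy
              exact hall v hv
            · rw [(stab_rotS hD.sV).card, hD.sW.card]
          have hDW : Dat n k W V := by
            refine ⟨hD.sW, hD.sV, hD.disj.symm, ?_⟩
            rw [hWV]
            exact (dat_rotS hD).reg
          have all3 : ∀ y ∈ V, rot n (rot n (rot n y)) ∈ V := by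
            intro y hy
            rcases hD.reg (rot n y) (rot_lt (hD.sV.lt y hy)) with h | h | h
            · exact absurd h (hD.sV.adj y hy)
            · exact absurd h (hg y hy)
            · exact h
          obtain ⟨v, hv⟩ := Finset.card_pos.1 (show 0 < V.card by rw [hD.sV.card]; omega)
          apply Good.symm
          apply no_gap_case hn3 hDW (rot n v) (hall v hv) (all3 v hv)
          rw [hWV]
          intro y hy
          obtain ⟨z, hz, rfl⟩ := rot_surj (rotS_lt hD.sV.lt y hy)
          rw [mem_rotS hD.sV.lt hz] at hy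
          rw [mem_rotS hD.sV.lt (rot_lt (rot_lt hz))]
          exact hg z hy

end Pool.Agent.Work.MP_b71732_co
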