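import Pool.Agent.Work.MP_b71732_co.Rot

namespace Pool.Agent.Work.MP_b71732_co

open Classical in
/-- the largest element. -/
noncomputable def top (A : Finset ℕ) : ℕ := if h : A.Nonempty then A.max' h else 0

theorem top_mem {A : Finset ℕ} (h : A.Nonempty) : top A ∈ A := by
  unfold top; rw [dif_pos h]; exact A.max'_mem h

theorem le_top {A : Finset ℕ} {x : ℕ} (h : x ∈ A) : x ≤ top A := by
  unfold top; rw [dif_pos ⟨x, h⟩]; exact A.le_max' x h

theorem stab_erase {n k : ℕ} {A : Finset ℕ} (hn : 3 ≤ n) (hk : 1 ≤ k) (h : Stab n k A) :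
    Stab (n - 2) (k - 1) (A.erase (top A)) := by
  have hne : A.Nonempty := by
    rw [← Finset.card_pos, h.card]; omega
  have hM := top_mem hne
  have hMlt := h.lt _ hM
  have key : ∀ x ∈ A.erase (top A), x + 2 ≤ top A ∧ x ∈ A := by
    intro x hx
    rw [Finset.mem_erase] at hx
    refine ⟨?_, hx.2⟩
    have h1 := le_top hx.2
    by_contra hcon
    have h2 : x + 1 = top A := by
      have := hx.1
      omega
    apply h.adj x hx.2
    have h3 : rot n x = x + 1 := by unfold rot; split_ifs <;> omega
    rw [h3, h2]; exact hM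
  refine ⟨?_, ?_, ?_⟩
  · intro x hx
    have := (key x hx).1
    omega
  · rw [Finset.card_erase_of_mem hM, h.card]
  · intro x hx hcon
    have h1 := (key x hx).1
    have h2 := h.adj x (key x hx).2
    have h4 := (key _ hcon).2
    by_cases h3 : x + 1 = n - 2
    · have h5 : rot (n - 2) x = 0 := by unfold rot; split_ifs; rfl
      have h6 : top A = n - 1 := by omega
      have h7 := h.adj _ hM
      rw [h6] at h7
      have h8 : rot n (n - 1) = 0 := by unfold rot; split_ifs <;> omega
      rw [h8] at h7
      rw [h5] at h4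
      exact h7 h4
    · have h5 : rot (n - 2) x = x + 1 := by unfold rot; split_ifs; rfl
      have h6 : rot n x = x + 1 := by unfold rot; split_ifs <;> omega
      rw [h5] at h4
      rw [h6] at h2
      exact h2 h4

theorem reduce {n k m : ℕ} {V W : Finset ℕ} (hn : 4 ≤ n) (hk : 1 ≤ k) (h : Dat n k V W)
    (h3 : n - 3 ∈ V) (h1 : n - 1 ∈ V)
    (hg : Good (n - 2) (k - 1) m (V.erase (n - 1)) (W.erase (n - 2))) : Good n k m V W := by
  have r3 : rot n (n - 3) = n - 2 := by unfold rot; split_ifs <;> omega
  have r2 : rot n (n - 2) = n - 1 := by unfold rot; split_ifs <;> omega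
  have hVW := Finset.disjoint_left.1 h.disj
  have h2 : n - 2 ∈ W := by
    rcases gap_mem h _ h3 with h4 | h4
    · rwa [r3] at h4
    · rw [r3, r2] at h4
      exact absurd h4 (hVW h1)
  have h4V : n - 4 ∉ V := by
    intro hc
    apply h.sV.adj _ hc
    have : rot n (n - 4) = n - 3 := by unfold rot; split_ifs <;> omega
    rw [this]; exact h3
  -- an element of W among n-4, n-5
  have hw : ∃ w ∈ W, w < n - 2 ∧ n ≤ w + 5 := by
    have hlast : ∀ v ∈ V, rot n v ≠ n - 3 := by
      intro v hv hc
      exact h.sV.adj v hv (by rw [hc]; exact h3)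
    by_cases h5 : 5 ≤ n ∧ n - 5 ∈ V
    · rcases gap_mem h _ h5.2 with h6 | h6
      · exact ⟨_, h6, by unfold rot; split_ifs <;> omega, by unfold rot; split_ifs <;> omega⟩
      · exfalso
        have : rot n (rot n (n - 5)) = n - 3 := by
          unfold rot; split_ifs <;> omega
        rw [this] at h6
        exact hVW h3 h6
    · by_cases h6 : n = 4
      · subst h6
        rcases gap_mem h _ h1 with h7 | h7
        · exact ⟨_, h7, by unfold rot; split_ifs <;> omega, by unfold rot; split_ifs <;> omega⟩
        · exfalso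
          exact hVW h3 h7
      · have h7 : n - 5 ∉ V := fun hc => h5 ⟨by omega, hc⟩
        -- position -6
        obtain ⟨x, hx, hxe⟩ := rot_surj (show n - 5 < n by omega)
        have r5 : rot n (n - 5) = n - 4 := by unfold rot; split_ifs <;> omega
        rcases h.reg x hx with h8 | h8 | h8
        · rcases gap_mem h _ h8 with h9 | h9
          · rw [hxe] at h9
            exact ⟨_, h9, by omega, by omega⟩
          · rw [hxe, r5] at h9
            exact ⟨_, h9, by omega, by omega⟩
        · rw [hxe] at h8
          exact absurd h8 h7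
        · rw [hxe, r5] at h8
          exact absurd h8 h4V
  obtain ⟨c, hc1, hc2⟩ := hg
  refine ⟨fun A => c (A.erase (top A)), fun A hA => hc1 _ (stab_erase (by omega) hk hA), ?_⟩
  -- key uniqueness statement
  have key : ∀ A B, Stab n k A → Stab n k B → Disjoint A B →
      A.erase (top A) = V.erase (n - 1) → B.erase (top B) = W.erase (n - 2) →
      A = V ∧ B = W := by
    intro A B hA hB hd he1 he2
    have hAne : A.Nonempty := by rw [← Finset.card_pos, hA.card]; omega
    have hBne : B.Nonempty := by rw [← Finset.card_pos, hB.card]; omega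
    have hMA := top_mem hAne
    have hMB := top_mem hBne
    have hMAlt := hA.lt _ hMA
    have hMBlt := hB.lt _ hMB
    have hd' := Finset.disjoint_left.1 hd
    have e3 : n - 3 ∈ A.erase (top A) := by
      rw [he1, Finset.mem_erase]; exact ⟨by omega, h3⟩
    rw [Finset.mem_erase] at e3
    have e4 := le_top e3.2
    have e5 : n - 2 ∉ A := by
      rw [← r3]; exact hA.adj _ e3.2
    have hMA1 : top A = n - 1 := by
      have : top A ≠ n - 2 := fun hc => e5 (hc ▸ hMA)
      have := e3.1
      omega
    have hAV : A = V := by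
      rw [← Finset.insert_erase hMA, he1, hMA1, Finset.insert_erase h1]
    refine ⟨hAV, ?_⟩
    obtain ⟨w, hwW, hw1, hw2⟩ := hw
    have f1 : w ∈ B.erase (top B) := by
      rw [he2, Finset.mem_erase]; exact ⟨by omega, hwW⟩
    rw [Finset.mem_erase] at f1
    have f2 := le_top f1.2
    have f3 : w + 1 ∉ B := by
      have := hB.adj _ f1.2
      have h' : rot n w = w + 1 := by unfold rot; split_ifs <;> omega
      rwa [h'] at this
    have f4 : top B ≠ w + 1 := fun hc => f3 (hc ▸ hMB)
    have f5 : top B ≠ n - 1 := fun hc => hd' (hAV ▸ h1) (hc ▸ hMB)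
    have f6 : top B ≠ n - 3 := fun hc => hd' e3.2 (hc ▸ hMB)
    have hMB1 : top B = n - 2 := by
      have := f1.1
      omega
    rw [← Finset.insert_erase hMB, he2, hMB1, Finset.insert_erase h2]
  intro A B hA hB hd he
  have hA' := stab_erase (by omega) hk hA
  have hB' := stab_erase (by omega) hk hB
  have hd2 : Disjoint (A.erase (top A)) (B.erase (top B)) :=
    Finset.disjoint_of_subset_left (Finset.erase_subset _ _)
      (Finset.disjoint_of_subset_right (Finset.erase_subset _ _) hd)
  rcases hc2 _ _ hA' hB' hd2 he with h5 | h5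
  · exact Or.inl (key A B hA hB hd h5.1 h5.2)
  · exact Or.inr (key B A hB hA hd.symm h5.2 h5.1).symm

theorem dat_reduce {n k : ℕ} {V W : Finset ℕ} (hn : 4 ≤ n) (h : Dat n k V W)
    (h3 : n - 3 ∈ V) (h1 : n - 1 ∈ V) :
    Dat (n - 2) (k - 1) (V.erase (n - 1)) (W.erase (n - 2)) := by
  have r3 : rot n (n - 3) = n - 2 := by unfold rot; split_ifs <;> omega
  have r2 : rot n (n - 2) = n - 1 := by unfold rot; split_ifs <;> omega
  have r1 : rot n (n - 1) = 0 := by unfold rot; split_ifs <;> omega
  have hVW := Finset.disjoint_left.1 h.disj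
  have h2 : n - 2 ∈ W := by
    rcases gap_mem h _ h3 with h4 | h4
    · rwa [r3] at h4
    · rw [r3, r2] at h4
      exact absurd h4 (hVW h1)
  have h2V : n - 2 ∉ V := by rw [← r3]; exact h.sV.adj _ h3
  have h0V : 0 ∉ V := by rw [← r1]; exact h.sV.adj _ h1
  have h1W : n - 1 ∉ W := hVW h1
  have h3W : n - 3 ∉ W := hVW h3
  refine ⟨⟨?_, ?_, ?_⟩, ⟨?_, ?_, ?_⟩, ?_, ?_⟩
  · intro x hx
    rw [Finset.mem_erase] at hx
    have := h.sV.lt x hx.2
    have h4 : x ≠ n - 2 := fun hc => h2V (hc ▸ hx.2)
    have := hx.1
    omega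
  · rw [Finset.card_erase_of_mem h1, h.sV.card]
  · intro x hx hcon
    rw [Finset.mem_erase] at hx hcon
    have h4 := h.sV.lt x hx.2
    have h5 := h.sV.adj x hx.2
    have h6 : x ≠ n - 2 := fun hc => h2V (hc ▸ hx.2)
    by_cases h7 : x + 1 = n - 2
    · have : rot (n - 2) x = 0 := by unfold rot; split_ifs; rfl
      rw [this] at hcon
      exact h0V hcon.2
    · have h8 : rot (n - 2) x = x + 1 := by unfold rot; split_ifs; rfl
      have h9 : rot n x = x + 1 := by
        have := hx.1
        unfold rot; split_ifs <;> omega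
      rw [h8] at hcon
      rw [h9] at h5
      exact h5 hcon.2
  · intro x hx
    rw [Finset.mem_erase] at hx
    have := h.sW.lt x hx.2
    have h4 : x ≠ n - 1 := fun hc => h1W (hc ▸ hx.2)
    have := hx.1
    omega
  · rw [Finset.card_erase_of_mem h2, h.sW.card]
  · intro x hx hcon
    rw [Finset.mem_erase] at hx hcon
    have h4 := h.sW.lt x hx.2
    have h5 := h.sW.adj x hx.2
    have h6 : x ≠ n - 1 := fun hc => h1W (hc ▸ hx.2)
    have h6' : x ≠ n - 3 := fun hc => h3W (hc ▸ hx.2)
    have h10 := hx.1
    have h8 : rot (n - 2) x = x + 1 := by unfold rot; split_ifs <;> omega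
    have h9 : rot n x = x + 1 := by unfold rot; split_ifs <;> omega
    rw [h8] at hcon
    rw [h9] at h5
    exact h5 hcon.2
  · exact Finset.disjoint_of_subset_left (Finset.erase_subset _ _)
      (Finset.disjoint_of_subset_right (Finset.erase_subset _ _) h.disj)
  · intro x hx
    simp only [Finset.mem_erase]
    by_cases h4 : x = n - 3
    · left; exact ⟨by omega, h4 ▸ h3⟩
    · by_cases h5 : x = n - 4
      · right; left
        have : rot (n - 2) x = n - 3 := by unfold rot; split_ifs <;> omega
        rw [this]; exact ⟨by omega, h3⟩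
      · by_cases h5' : x + 5 = n
        · right; right
          have : rot (n - 2) (rot (n - 2) x) = n - 3 := by unfold rot; split_ifs <;> omega
          rw [this]; exact ⟨by omega, h3⟩
        · have e1 : rot (n - 2) x = x + 1 := by unfold rot; split_ifs <;> omega
          have e2 : rot (n - 2) (x + 1) = x + 2 := by unfold rot; split_ifs <;> omega
          have e3 : rot n x = x + 1 := by unfold rot; split_ifs <;> omega
          have e4 : rot n (x + 1) = x + 2 := by unfold rot; split_ifs <;> omega
          rw [e1, e2]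
          have := h.reg x (by omega)
          rw [e3, e4] at this
          rcases this with h6 | h6 | h6
          · left; exact ⟨by omega, h6⟩
          · right; left; exact ⟨by omega, h6⟩
          · right; right; exact ⟨by omega, h6⟩

end Pool.Agent.Work.MP_b71732_co
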