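import Pool.Agent.Work.MP_b71732_co.Basic

namespace Pool.Agent.Work.MP_b71732_co

/-- there is a colouring with `m` colours of the stable `k`-sets in which the only pair of
disjoint sets of the same colour is `V, W`. -/
def Good (n k m : ℕ) (V W : Finset ℕ) : Prop :=
  ∃ c : Finset ℕ → ℕ, (∀ A, Stab n k A → c A < m) ∧
    ∀ A B, Stab n k A → Stab n k B → Disjoint A B → c A = c B →
      (A = V ∧ B = W) ∨ (A = W ∧ B = V)

structure Dat (n k : ℕ) (V W : Finset ℕ) : Prop where
  sV : Stab n k V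
  sW : Stab n k W
  disj : Disjoint V W
  reg : ∀ x < n, x ∈ V ∨ rot n x ∈ V ∨ rot n (rot n x) ∈ V

theorem Good.symm {n k m : ℕ} {V W : Finset ℕ} (h : Good n k m V W) : Good n k m W V := by
  obtain ⟨c, h1, h2⟩ := h
  refine ⟨c, h1, fun A B hA hB hd he => ?_⟩
  rcases h2 A B hA hB hd he with h | h
  · exact Or.inr h
  · exact Or.inl h

theorem rot_lt {n x : ℕ} (h : x < n) : rot n x < n := by
  unfold rot; split_ifs <;> omega

theorem rot_inj {n x y : ℕ} (_hx : x < n) (_hy : y < n) (h : rot n x = rot n y) : x = y := by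
  unfold rot at h; split_ifs at h <;> omega

theorem rot_surj {n y : ℕ} (hy : y < n) : ∃ x, x < n ∧ rot n x = y := by
  by_cases h0 : y = 0
  · refine ⟨n - 1, by omega, ?_⟩
    unfold rot; split_ifs <;> omega
  · refine ⟨y - 1, by omega, ?_⟩
    unfold rot; split_ifs <;> omega

def rotS (n : ℕ) (A : Finset ℕ) : Finset ℕ := A.image (rot n)

theorem mem_rotS {n x : ℕ} {A : Finset ℕ} (hA : ∀ a ∈ A, a < n) (hx : x < n) :
    rot n x ∈ rotS n A ↔ x ∈ A := by
  unfold rotS
  rw [Finset.mem_image]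
  constructor
  · rintro ⟨a, ha, he⟩
    rwa [← rot_inj (hA a ha) hx he]
  · intro h
    exact ⟨x, h, rfl⟩

theorem rotS_lt {n : ℕ} {A : Finset ℕ} (hA : ∀ a ∈ A, a < n) : ∀ a ∈ rotS n A, a < n := by
  intro a ha
  unfold rotS at ha
  rw [Finset.mem_image] at ha
  obtain ⟨b, hb, rfl⟩ := ha
  exact rot_lt (hA b hb)

theorem stab_rotS {n k : ℕ} {A : Finset ℕ} (h : Stab n k A) : Stab n k (rotS n A) := by
  refine ⟨rotS_lt h.lt, ?_, ?_⟩
  · rw [← h.card]
    unfold rotS
    apply Finset.card_image_of_injOn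
    intro x hx y hy hxy
    exact rot_inj (h.lt x hx) (h.lt y hy) hxy
  · intro a ha
    have ha' := ha
    unfold rotS at ha'
    rw [Finset.mem_image] at ha'
    obtain ⟨b, hb, rfl⟩ := ha'
    rw [mem_rotS h.lt (rot_lt (h.lt b hb))]
    exact h.adj b hb

theorem disj_rotS {n : ℕ} {A B : Finset ℕ} (hA : ∀ a ∈ A, a < n) (hB : ∀ a ∈ B, a < n)
    (h : Disjoint A B) : Disjoint (rotS n A) (rotS n B) := by
  rw [Finset.disjoint_left] at h ⊢
  intro a ha hb
  obtain ⟨x, hx, rfl⟩ := rot_surj (rotS_lt hA a ha)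
  rw [mem_rotS hA hx] at ha
  rw [mem_rotS hB hx] at hb
  exact h ha hb

theorem rotS_inj {n : ℕ} {A B : Finset ℕ} (hA : ∀ a ∈ A, a < n) (hB : ∀ a ∈ B, a < n)
    (h : rotS n A = rotS n B) : A = B := by
  ext x
  constructor
  · intro hx
    rw [← mem_rotS hB (hA x hx), ← h, mem_rotS hA (hA x hx)]
    exact hx
  · intro hx
    rw [← mem_rotS hA (hB x hx), h, mem_rotS hB (hB x hx)]
    exact hx

theorem good_of_rot {n k m : ℕ} {V W : Finset ℕ} (hV : Stab n k V) (hW : Stab n k W)
    (h : Good n k m (rotS n V) (rotS n W)) : Good n k m V W := by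
  obtain ⟨c, h1, h2⟩ := h
  refine ⟨fun A => c (rotS n A), fun A hA => h1 _ (stab_rotS hA), fun A B hA hB hd he => ?_⟩
  rcases h2 _ _ (stab_rotS hA) (stab_rotS hB) (disj_rotS hA.lt hB.lt hd) he with h | h
  · exact Or.inl ⟨rotS_inj hA.lt hV.lt h.1, rotS_inj hB.lt hW.lt h.2⟩
  · exact Or.inr ⟨rotS_inj hA.lt hW.lt h.1, rotS_inj hB.lt hV.lt h.2⟩

theorem dat_rotS {n k : ℕ} {V W : Finset ℕ} (h : Dat n k V W) :
    Dat n k (rotS n V) (rotS n W) := by
  refine ⟨stab_rotS h.sV, stab_rotS h.sW, disj_rotS h.sV.lt h.sW.lt h.disj, ?_⟩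
  intro x hx
  obtain ⟨y, hy, rfl⟩ := rot_surj hx
  rw [mem_rotS h.sV.lt hy, mem_rotS h.sV.lt (rot_lt hy), mem_rotS h.sV.lt (rot_lt (rot_lt hy))]
  exact h.reg y hy

/-- rotate a distinguished position to a given one. -/
theorem rotate_to {n k m : ℕ} (R : ℕ → Finset ℕ → Finset ℕ → Prop)
    (hR : ∀ x V W, x < n → Dat n k V W → R x V W → R (rot n x) (rotS n V) (rotS n W))
    (t : ℕ) (ht : t < n)
    (hg : ∀ V W, Dat n k V W → R t V W → Good n k m V W) :
    ∀ x V W, x < n → Dat n k V W → R x V W → Good n k m V W := by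
  have key : ∀ j x V W, x < n → (rot n)^[j] x = t → Dat n k V W → R x V W →
      Good n k m V W := by
    intro j
    induction j with
    | zero =>
      intro x V W hx he hD hRx
      simp only [Function.iterate_zero, id_eq] at he
      subst he
      exact hg V W hD hRx
    | succ j ih =>
      intro x V W hx he hD hRx
      rw [Function.iterate_succ_apply] at he
      exact good_of_rot hD.sV hD.sW
        (ih (rot n x) _ _ (rot_lt hx) he (dat_rotS hD) (hR x V W hx hD hRx))
  intro x V W hx hD hRx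
  have h1 : ∀ j x, x + j < n → (rot n)^[j] x = x + j := by
    intro j
    induction j with
    | zero => intro x _; rfl
    | succ j ih =>
      intro x hxj
      rw [Function.iterate_succ_apply, show rot n x = x + 1 by unfold rot; split_ifs <;> omega,
        ih (x + 1) (by omega)]
      omega
  have h2 : (rot n)^[t + (1 + (n - 1 - x))] x = t := by
    rw [Function.iterate_add_apply, Function.iterate_add_apply, h1 _ x (by omega),
      Function.iterate_one, show x + (n - 1 - x) = n - 1 by omega,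
      show rot n (n - 1) = 0 by unfold rot; split_ifs <;> omega, h1 _ 0 (by omega)]
    omega
  exact key _ x V W hx h2 hD hRx

/-- every gap of `V` contains an element of `W`. -/
theorem gap_mem {n k : ℕ} {V W : Finset ℕ} (h : Dat n k V W) :
    ∀ v ∈ V, rot n v ∈ W ∨ rot n (rot n v) ∈ W := by
  classical
  -- the map sending w to the preceding element of V
  have hpre : ∀ w ∈ W, ∃ v ∈ V, rot n v = w ∨ rot n (rot n v) = w := by
    intro w hw
    obtain ⟨y, hy, rfl⟩ := rot_surj (h.sW.lt w hw)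
    obtain ⟨x, hx, rfl⟩ := rot_surj hy
    rcases h.reg x hx with h1 | h1 | h1
    · exact ⟨x, h1, Or.inr rfl⟩
    · exact ⟨rot n x, h1, Or.inl rfl⟩
    · exact absurd hw (Finset.disjoint_left.1 h.disj h1)
  choose! f hf hf2 using hpre
  have hinj : Set.InjOn f (W : Set ℕ) := by
    intro a ha b hb hab
    have ha2 := hf2 a ha
    have hb2 := hf2 b hb
    rw [hab] at ha2
    rcases ha2 with h1 | h1 <;> rcases hb2 with h2 | h2
    · exact h1.symm.trans h2
    · exfalso
      apply h.sW.adj a ha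
      rw [← h1, h2]; exact hb
    · exfalso
      apply h.sW.adj b hb
      rw [← h2, h1]; exact ha
    · exact h1.symm.trans h2
  have himg : W.image f = V := by
    apply Finset.eq_of_subset_of_card_le
    · intro v hv
      rw [Finset.mem_image] at hv
      obtain ⟨w, hw, rfl⟩ := hv
      exact hf w hw
    · rw [Finset.card_image_of_injOn hinj, h.sV.card, h.sW.card]
  intro v hv
  rw [← himg, Finset.mem_image] at hv
  obtain ⟨w, hw, rfl⟩ := hv
  rcases hf2 w hw with h1 | h1
  · left; rw [h1]; exact hw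
  · right; rw [h1]; exact hw

end Pool.Agent.Work.MP_b71732_co
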